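import Mathlib

noncomputable section

namespace Pool.Agent.H950R3

open Complex

/-- unit vector in the direction of `p` -/
def U (p : ℂ) : ℂ := p / (‖p‖ : ℂ)

/-- the distance between the two clusters -/
def Dd : ℝ := 1000000

/-- real inner product -/
def ip (w h : ℂ) : ℝ := w.re * h.re + w.im * h.im

theorem abs_ip_le (w h : ℂ) : |ip w h| ≤ ‖w‖ * ‖h‖ := by
  have h1 : ip w h = ((starRingEnd ℂ) w * h).re := by
    simp [ip]
  rw [h1]
  calc |((starRingEnd ℂ) w * h).re| ≤ ‖(starRingEnd ℂ) w * h‖ := Complex.abs_re_le_norm _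
    _ = ‖w‖ * ‖h‖ := by rw [norm_mul, Complex.norm_conj]

theorem sq_norm_eq (p : ℂ) : ‖p‖ ^ 2 = ip p p := by
  rw [← Complex.normSq_eq_norm_sq, Complex.normSq_apply]
  rfl

theorem key {w h h' : ℂ} (hw : ‖w‖ = 1) (hh : ‖h‖ ≤ 4) (hh' : ‖h'‖ ≤ 4) :
    ‖U (Dd * w + h') - U (Dd * w + h) -
      ((1 / Dd : ℝ) : ℂ) * ((h' - h) - (ip w (h' - h) : ℂ) * w)‖ ≤ 40 / Dd ^ 2 * ‖h' - h‖ := by
  set δ := h' - h with hδ
  set p := (Dd : ℂ) * w + h with hp
  set p' := (Dd : ℂ) * w + h' with hp'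
  set r := ‖p‖ with hr
  set r' := ‖p'‖ with hr'
  set s := ip w δ with hs
  have hδn : 0 ≤ ‖δ‖ := norm_nonneg _
  have hD : (0:ℝ) < Dd := by norm_num [Dd]
  have hDw : ‖(Dd : ℂ) * w‖ = Dd := by
    rw [norm_mul, hw, mul_one, Complex.norm_real, Real.norm_eq_abs, abs_of_pos hD]
  have hr1 : |r - Dd| ≤ 4 := by
    have := abs_norm_sub_norm_le p ((Dd : ℂ) * w)
    rw [hDw] at this
    have e : p - (Dd : ℂ) * w = h := by rw [hp]; ring
    rw [e] at this
    exact this.trans hh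
  have hr1' : |r' - Dd| ≤ 4 := by
    have := abs_norm_sub_norm_le p' ((Dd : ℂ) * w)
    rw [hDw] at this
    have e : p' - (Dd : ℂ) * w = h' := by rw [hp']; ring
    rw [e] at this
    exact this.trans hh'
  have hr2 := abs_le.1 hr1
  have hr2' := abs_le.1 hr1'
  have hDv : Dd = 1000000 := rfl
  have hrpos : 0 < r := by rw [hDv] at hr2; linarith
  have hrpos' : 0 < r' := by rw [hDv] at hr2'; linarith
  have hsle : |s| ≤ ‖δ‖ := by
    have := abs_ip_le w δ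
    rwa [hw, one_mul] at this
  -- difference of the norms
  have hnn : (r' - r) * (r' + r) = 2 * Dd * s + ip (h + h') δ := by
    have e1 : (r' - r) * (r' + r) = r' ^ 2 - r ^ 2 := by ring
    rw [e1, hr, hr', sq_norm_eq, sq_norm_eq, hs, hp, hp', hδ]
    simp only [ip, Complex.add_re, Complex.add_im, Complex.sub_re, Complex.sub_im, Complex.mul_re,
      Complex.mul_im, Complex.ofReal_re, Complex.ofReal_im]
    ring
  have hip2 : |ip (h + h') δ| ≤ 8 * ‖δ‖ := by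
    refine (abs_ip_le _ _).trans ?_
    have : ‖h + h'‖ ≤ 8 := (norm_add_le _ _).trans (by linarith)
    exact mul_le_mul_of_nonneg_right this hδn
  have hA : |(r' - r) - s| ≤ 9 / Dd * ‖δ‖ := by
    have e : ((r' - r) - s) * (r' + r) = (2 * Dd - (r' + r)) * s + ip (h + h') δ := by
      linear_combination hnn
    have h1 : |((r' - r) - s) * (r' + r)| ≤ 16 * ‖δ‖ := by
      rw [e]
      refine (abs_add_le _ _).trans ?_
      have h2 : |(2 * Dd - (r' + r)) * s| ≤ 8 * ‖δ‖ := by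
        rw [abs_mul]
        have h3 : |2 * Dd - (r' + r)| ≤ 8 := by rw [abs_le]; constructor <;> linarith
        exact mul_le_mul h3 hsle (abs_nonneg _) (by norm_num)
      linarith
    rw [abs_mul, abs_of_pos (show 0 < r' + r by linarith)] at h1
    have h4 : 1999992 ≤ r' + r := by rw [hDv] at hr2 hr2'; linarith
    have h5 : |r' - r - s| * 1999992 ≤ |r' - r - s| * (r' + r) :=
      mul_le_mul_of_nonneg_left h4 (abs_nonneg _)
    rw [hDv]
    nlinarith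
  have hinv : |1 / r' - 1 / Dd| ≤ 5 / Dd ^ 2 := by
    have e : 1 / r' - 1 / Dd = (Dd - r') / (r' * Dd) := by field_simp
    rw [e, abs_div, abs_of_pos (mul_pos hrpos' hD), div_le_iff₀ (mul_pos hrpos' hD), abs_sub_comm]
    have h1 := hr1'
    have h2 := hr2'.1
    rw [hDv] at h1 h2 ⊢
    linarith
  have hinv0 : |1 / r - 1 / Dd| ≤ 5 / Dd ^ 2 := by
    have e : 1 / r - 1 / Dd = (Dd - r) / (r * Dd) := by field_simp
    rw [e, abs_div, abs_of_pos (mul_pos hrpos hD), div_le_iff₀ (mul_pos hrpos hD), abs_sub_comm]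
    have h1 := hr1
    have h2 := hr2.1
    rw [hDv] at h1 h2 ⊢
    linarith
  have hr'inv : 1 / r' ≤ 11 / 10 / Dd := by
    rw [div_le_div_iff₀ hrpos' hD, hDv]
    rw [hDv] at hr2'
    linarith
  have hrinv : 1 / r ≤ 11 / 10 / Dd := by
    rw [div_le_div_iff₀ hrpos hD, hDv]
    rw [hDv] at hr2
    linarith
  -- the decomposition
  have hrc : (r : ℂ) ≠ 0 := by exact_mod_cast hrpos.ne'
  have hrc' : (r' : ℂ) ≠ 0 := by exact_mod_cast hrpos'.ne'
  have hDc : (Dd : ℂ) ≠ 0 := by exact_mod_cast hD.ne'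
  have hdec : U p' - U p - ((1 / Dd : ℝ) : ℂ) * (δ - (s : ℂ) * w) =
      (((1 / r' - 1 / Dd : ℝ)) : ℂ) * δ
      - ((((r' - r) - s) * (1 / r') : ℝ) : ℂ) * U p
      - ((s * (1 / r' - 1 / Dd) : ℝ) : ℂ) * U p
      - ((s * (1 / Dd) : ℝ) : ℂ) * (U p - w) := by
    unfold U
    rw [← hr, ← hr']
    have e : p' = p + δ := by rw [hp, hp', hδ]; ring
    rw [e]
    push_cast
    field_simp
    ring
  have hUp : ‖U p‖ = 1 := by
    unfold U
    rw [norm_div, ← hr, Complex.norm_real, Real.norm_eq_abs, abs_of_pos hrpos, div_self hrpos.ne']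
  have hUw : ‖U p - w‖ ≤ 10 / Dd := by
    have e : U p - w = ((1 / r : ℝ) : ℂ) * h + ((1 / r - 1 / Dd : ℝ) : ℂ) * ((Dd : ℂ) * w) := by
      unfold U
      rw [← hr, hp]
      push_cast
      field_simp
      ring
    rw [e]
    refine (norm_add_le _ _).trans ?_
    rw [norm_mul, norm_mul, hDw, Complex.norm_real, Complex.norm_real, Real.norm_eq_abs,
      Real.norm_eq_abs, abs_of_pos (by positivity : 0 < 1 / r)]
    have h1 : 1 / r * ‖h‖ ≤ 11 / 10 / Dd * 4 := mul_le_mul hrinv hh (norm_nonneg _) (by positivity)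
    have h2 : |1 / r - 1 / Dd| * Dd ≤ 5 / Dd ^ 2 * Dd := mul_le_mul_of_nonneg_right hinv0 hD.le
    have h3 : 5 / Dd ^ 2 * Dd = 5 / Dd := by field_simp
    have h4 : 11 / 10 / Dd * 4 + 5 / Dd = (47 / 5) / Dd := by ring
    have h5 : (47 / 5) / Dd ≤ 10 / Dd := by
      apply div_le_div_of_nonneg_right _ hD.le
      norm_num
    linarith
  rw [hdec]
  have t1 : ‖(((1 / r' - 1 / Dd : ℝ)) : ℂ) * δ‖ ≤ 5 / Dd ^ 2 * ‖δ‖ := by
    rw [norm_mul, Complex.norm_real, Real.norm_eq_abs]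
    exact mul_le_mul_of_nonneg_right hinv hδn
  have t2 : ‖((((r' - r) - s) * (1 / r') : ℝ) : ℂ) * U p‖ ≤ 10 / Dd ^ 2 * ‖δ‖ := by
    rw [norm_mul, Complex.norm_real, Real.norm_eq_abs, hUp, mul_one, abs_mul,
      abs_of_pos (by positivity : 0 < 1 / r')]
    calc |r' - r - s| * (1 / r') ≤ (9 / Dd * ‖δ‖) * (11 / 10 / Dd) :=
          mul_le_mul hA hr'inv (by positivity) (by positivity)
      _ = (99 / 10) / Dd ^ 2 * ‖δ‖ := by field_simp; ring
      _ ≤ 10 / Dd ^ 2 * ‖δ‖ := by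
          apply mul_le_mul_of_nonneg_right _ hδn
          apply div_le_div_of_nonneg_right _ (by positivity)
          norm_num
  have t3 : ‖((s * (1 / r' - 1 / Dd) : ℝ) : ℂ) * U p‖ ≤ 5 / Dd ^ 2 * ‖δ‖ := by
    rw [norm_mul, Complex.norm_real, Real.norm_eq_abs, hUp, mul_one, abs_mul, mul_comm]
    exact mul_le_mul hinv hsle (abs_nonneg _) (by positivity)
  have t4 : ‖((s * (1 / Dd) : ℝ) : ℂ) * (U p - w)‖ ≤ 10 / Dd ^ 2 * ‖δ‖ := by
    rw [norm_mul, Complex.norm_real, Real.norm_eq_abs, abs_mul,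
      abs_of_pos (by positivity : 0 < 1 / Dd)]
    calc |s| * (1 / Dd) * ‖U p - w‖ ≤ ‖δ‖ * (1 / Dd) * (10 / Dd) := by gcongr
      _ = 10 / Dd ^ 2 * ‖δ‖ := by field_simp
  have tri : ∀ a b c d : ℂ, ‖a - b - c - d‖ ≤ ‖a‖ + ‖b‖ + ‖c‖ + ‖d‖ := by
    intro a b c d
    have h1 := norm_sub_le (a - b - c) d
    have h2 := norm_sub_le (a - b) c
    have h3 := norm_sub_le a b
    linarith
  refine (tri _ _ _ _).trans ?_
  have hfin : 40 / Dd ^ 2 * ‖δ‖ = 5 / Dd ^ 2 * ‖δ‖ + 10 / Dd ^ 2 * ‖δ‖ + 5 / Dd ^ 2 * ‖δ‖ + 10 / Dd ^ 2 * ‖δ‖ + 10 / Dd ^ 2 * ‖δ‖ := by ring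
  have hpos : 0 ≤ 10 / Dd ^ 2 * ‖δ‖ := by positivity
  linarith

end Pool.Agent.H950R3
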