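import Mathlib
import Pool.Agent.H950R3.Unit

noncomputable section

namespace Pool.Agent.H950R3

open Complex

/-- the three outer directions -/
def w : Fin 3 → ℂ := ![-1, ⟨-1/2, Real.sqrt 3 / 2⟩, ⟨-1/2, -(Real.sqrt 3 / 2)⟩]

theorem s3 : Real.sqrt 3 * Real.sqrt 3 = 3 := Real.mul_self_sqrt (by norm_num)

theorem norm_w (j : Fin 3) : ‖w j‖ = 1 := by
  have h : ‖w j‖ ^ 2 = 1 := by
    rw [sq_norm_eq]
    have := s3
    fin_cases j <;> simp [w, ip] <;> nlinarith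
  have h0 := norm_nonneg (w j)
  nlinarith

/-- projection to the orthogonal complement of the direction `v` -/
def P (v h : ℂ) : ℂ := h - (ip v h : ℂ) * v

theorem P_zero (v : ℂ) : P v 0 = 0 := by simp [P, ip]

theorem norm_P_le {v : ℂ} (hv : ‖v‖ = 1) (h : ℂ) : ‖P v h‖ ≤ ‖h‖ := by
  have h1 : ‖P v h‖ ^ 2 ≤ ‖h‖ ^ 2 := by
    have e : ‖P v h‖ ^ 2 = ‖h‖ ^ 2 - (ip v h) ^ 2 * (2 - ‖v‖ ^ 2) := by
      rw [sq_norm_eq, sq_norm_eq, sq_norm_eq]
      simp only [P, ip, Complex.sub_re, Complex.sub_im, Complex.mul_re, Complex.mul_im,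
        Complex.ofReal_re, Complex.ofReal_im]
      ring
    rw [e, hv]
    nlinarith [sq_nonneg (ip v h)]
  exact (sq_le_sq₀ (norm_nonneg _) (norm_nonneg _)).1 h1

theorem sum_P (h : ℂ) : ∑ j, P (w j) h = (3 / 2 : ℂ) * h := by
  have := s3
  apply Complex.ext
  · simp [Fin.sum_univ_three, P, w, ip]
    linear_combination (- h.re * 0 ) * this
  · simp [Fin.sum_univ_three, P, w, ip]
    linear_combination (- h.im / 2) * this

theorem P_one (h : ℂ) : P 1 h = (h.im : ℂ) * I := by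
  apply Complex.ext <;> simp [P, ip]

/-- relative position of the neighbour `n` seen from `z` -/
def nb (z n : ℂ) : ℂ := - (starRingEnd ℂ) n - z

/-- total force on `z` -/
def F (z n n' : ℂ) (q : Fin 3 → ℂ) : ℂ :=
  U ((Dd : ℂ) * 1 + nb z n) + U ((Dd : ℂ) * 1 + nb z n') +
    ∑ j, U ((Dd : ℂ) * w j + (q j - z))

theorem F_comm (z n n' : ℂ) (q : Fin 3 → ℂ) : F z n n' q = F z n' n q := by
  unfold F; ring

theorem U_D {v : ℂ} (hv : ‖v‖ = 1) : U ((Dd : ℂ) * v) = v := by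
  have hD : (0:ℝ) < Dd := by norm_num [Dd]
  unfold U
  rw [norm_mul, hv, mul_one, Complex.norm_real, Real.norm_eq_abs, abs_of_pos hD]
  have : (Dd : ℂ) ≠ 0 := by exact_mod_cast hD.ne'
  field_simp

theorem F_zero : F 0 0 0 (fun _ => 0) = 0 := by
  unfold F nb
  have h1 : (Dd : ℂ) * 1 + (- (starRingEnd ℂ) 0 - 0) = (Dd : ℂ) * 1 := by simp
  rw [h1, U_D (by simp)]
  have h2 : ∀ j, (Dd : ℂ) * w j + ((0:ℂ) - 0) = (Dd : ℂ) * w j := by intro j; simp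
  simp_rw [h2, fun j => U_D (norm_w j)]
  apply Complex.ext
  · simp [Fin.sum_univ_three, w]; norm_num
  · simp [Fin.sum_univ_three, w]

theorem norm_nb_le (z n : ℂ) : ‖nb z n‖ ≤ ‖n‖ + ‖z‖ := by
  unfold nb
  refine (norm_sub_le _ _).trans ?_
  rw [norm_neg, Complex.norm_conj]

theorem nb_sub (z n z' n' : ℂ) : nb z' n' - nb z n = nb (z' - z) (n' - n) := by
  unfold nb; simp; ring

/-- linearisation of the force -/
theorem F_diff {z n m z' n' m' : ℂ} {q q' : Fin 3 → ℂ}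
    (hz : ‖z‖ ≤ 2) (hn : ‖n‖ ≤ 2) (hm : ‖m‖ ≤ 2) (hz' : ‖z'‖ ≤ 2) (hn' : ‖n'‖ ≤ 2) (hm' : ‖m'‖ ≤ 2)
    (hq : ∀ j, ‖q j‖ ≤ 2) (hq' : ∀ j, ‖q' j‖ ≤ 2) :
    ‖(Dd : ℂ) * (F z' n' m' q' - F z n m q) -
      ((((n' - n).im + (m' - m).im - 2 * (z' - z).im : ℝ) : ℂ) * I - (3 / 2 : ℂ) * (z' - z) +
        ∑ j, P (w j) (q' j - q j))‖ ≤
      40 / Dd * (‖n' - n‖ + ‖m' - m‖ + 5 * ‖z' - z‖ + ∑ j, ‖q' j - q j‖) := by
  have hD : (0:ℝ) < Dd := by norm_num [Dd]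
  have hDc : (Dd : ℂ) ≠ 0 := by exact_mod_cast hD.ne'
  -- scaled version of the key estimate
  have key' : ∀ {v h h' : ℂ}, ‖v‖ = 1 → ‖h‖ ≤ 4 → ‖h'‖ ≤ 4 →
      ‖(Dd : ℂ) * (U (Dd * v + h') - U (Dd * v + h)) - P v (h' - h)‖ ≤ 40 / Dd * ‖h' - h‖ := by
    intro v h h' hv hh hh'
    have h1 := key hv hh hh'
    have e : (Dd : ℂ) * (U (Dd * v + h') - U (Dd * v + h)) - P v (h' - h) =
        (Dd : ℂ) * (U (Dd * v + h') - U (Dd * v + h) -
          ((1 / Dd : ℝ) : ℂ) * ((h' - h) - (ip v (h' - h) : ℂ) * v)) := by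
      unfold P
      push_cast
      field_simp
    rw [e, norm_mul, Complex.norm_real, Real.norm_eq_abs, abs_of_pos hD]
    calc Dd * _ ≤ Dd * (40 / Dd ^ 2 * ‖h' - h‖) := mul_le_mul_of_nonneg_left h1 hD.le
      _ = 40 / Dd * ‖h' - h‖ := by field_simp
  have k1 := key' (v := 1) (h := nb z n) (h' := nb z' n') (by simp)
    ((norm_nb_le _ _).trans (by linarith)) ((norm_nb_le _ _).trans (by linarith))
  have k2 := key' (v := 1) (h := nb z m) (h' := nb z' m') (by simp)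
    ((norm_nb_le _ _).trans (by linarith)) ((norm_nb_le _ _).trans (by linarith))
  have k3 : ∀ j, ‖(Dd : ℂ) * (U (Dd * w j + (q' j - z')) - U (Dd * w j + (q j - z))) -
      P (w j) ((q' j - z') - (q j - z))‖ ≤ 40 / Dd * ‖(q' j - z') - (q j - z)‖ := by
    intro j
    exact key' (norm_w j) ((norm_sub_le _ _).trans (by linarith [hq j]))
      ((norm_sub_le _ _).trans (by linarith [hq' j]))
  have hc : (0:ℝ) ≤ 40 / Dd := by positivity
  have k1' : ‖(Dd : ℂ) * (U (Dd * 1 + nb z' n') - U (Dd * 1 + nb z n)) - P 1 (nb z' n' - nb z n)‖ ≤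
      40 / Dd * (‖n' - n‖ + ‖z' - z‖) := by
    refine k1.trans (mul_le_mul_of_nonneg_left ?_ hc)
    rw [nb_sub]; exact norm_nb_le _ _
  have k2' : ‖(Dd : ℂ) * (U (Dd * 1 + nb z' m') - U (Dd * 1 + nb z m)) - P 1 (nb z' m' - nb z m)‖ ≤
      40 / Dd * (‖m' - m‖ + ‖z' - z‖) := by
    refine k2.trans (mul_le_mul_of_nonneg_left ?_ hc)
    rw [nb_sub]; exact norm_nb_le _ _
  have k3' : ∀ j, ‖(Dd : ℂ) * (U (Dd * w j + (q' j - z')) - U (Dd * w j + (q j - z))) -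
      P (w j) ((q' j - z') - (q j - z))‖ ≤ 40 / Dd * (‖q' j - q j‖ + ‖z' - z‖) := by
    intro j
    refine (k3 j).trans (mul_le_mul_of_nonneg_left ?_ hc)
    have e : (q' j - z') - (q j - z) = (q' j - q j) - (z' - z) := by ring
    rw [e]; exact norm_sub_le _ _
  have hP : ∀ j, P (w j) ((q' j - z') - (q j - z)) = P (w j) (q' j - q j) - P (w j) (z' - z) := by
    intro j
    apply Complex.ext <;> simp [P, ip] <;> ring
  have hsum : ∑ j, P (w j) ((q' j - z') - (q j - z)) =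
      ∑ j, P (w j) (q' j - q j) - (3 / 2 : ℂ) * (z' - z) := by
    simp_rw [hP]
    rw [Finset.sum_sub_distrib, sum_P]
  have edec : (Dd : ℂ) * (F z' n' m' q' - F z n m q) -
      ((((n' - n).im + (m' - m).im - 2 * (z' - z).im : ℝ) : ℂ) * I - (3 / 2 : ℂ) * (z' - z) +
        ∑ j, P (w j) (q' j - q j)) =
      ((Dd : ℂ) * (U (Dd * 1 + nb z' n') - U (Dd * 1 + nb z n)) - P 1 (nb z' n' - nb z n)) +
      ((Dd : ℂ) * (U (Dd * 1 + nb z' m') - U (Dd * 1 + nb z m)) - P 1 (nb z' m' - nb z m)) +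
      ∑ j, ((Dd : ℂ) * (U (Dd * w j + (q' j - z')) - U (Dd * w j + (q j - z))) -
        P (w j) ((q' j - z') - (q j - z))) := by
    rw [Finset.sum_sub_distrib, hsum, ← Finset.mul_sum, Finset.sum_sub_distrib, P_one, P_one]
    unfold F
    have e1 : (nb z' n' - nb z n).im = (n' - n).im - (z' - z).im := by
      rw [nb_sub]; unfold nb; simp; ring
    have e2 : (nb z' m' - nb z m).im = (m' - m).im - (z' - z).im := by
      rw [nb_sub]; unfold nb; simp; ring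
    rw [e1, e2]
    push_cast
    ring
  rw [edec]
  refine (norm_add_le _ _).trans ?_
  have hs : ‖∑ j, ((Dd : ℂ) * (U (Dd * w j + (q' j - z')) - U (Dd * w j + (q j - z))) -
        P (w j) ((q' j - z') - (q j - z)))‖ ≤ ∑ j, 40 / Dd * (‖q' j - q j‖ + ‖z' - z‖) :=
    (norm_sum_le _ _).trans (Finset.sum_le_sum fun j _ => k3' j)
  have hs2 : ∑ j : Fin 3, 40 / Dd * (‖q' j - q j‖ + ‖z' - z‖) =
      40 / Dd * (∑ j, ‖q' j - q j‖ + 3 * ‖z' - z‖) := by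
    rw [← Finset.mul_sum, Finset.sum_add_distrib]
    simp
  rw [hs2] at hs
  have h12 := (norm_add_le ((Dd : ℂ) * (U (Dd * 1 + nb z' n') - U (Dd * 1 + nb z n)) -
    P 1 (nb z' n' - nb z n)) ((Dd : ℂ) * (U (Dd * 1 + nb z' m') - U (Dd * 1 + nb z m)) -
    P 1 (nb z' m' - nb z m)))
  have efin : 40 / Dd * (‖n' - n‖ + ‖m' - m‖ + 5 * ‖z' - z‖ + ∑ j, ‖q' j - q j‖) =
    40 / Dd * (‖n' - n‖ + ‖z' - z‖) + 40 / Dd * (‖m' - m‖ + ‖z' - z‖) +
      40 / Dd * (∑ j, ‖q' j - q j‖ + 3 * ‖z' - z‖) := by ring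
  rw [efin]
  linarith

end Pool.Agent.H950R3
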