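import Mathlib
import Pool.Agent.H950R3.Force

noncomputable section

namespace Pool.Agent.H950R3

open Complex

/-- the admissible rectangle -/
def InR (z : ℂ) : Prop := |z.re| ≤ 1 / 100 ∧ |z.im| ≤ 3 / 4

/-- the parameters: end points and outer points of the two clusters -/
structure Par where
  a : ℂ
  b : ℂ
  q : ℕ → Fin 3 → ℂ
  ha : ‖a - I‖ ≤ 1 / 1000
  hb : ‖b + I‖ ≤ 1 / 1000
  hq : ∀ c j, ‖q c j‖ ≤ 1 / 1000

theorem InR.norm_le {z : ℂ} (h : InR z) : ‖z‖ ≤ 1 := by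
  have := Complex.norm_le_abs_re_add_abs_im z
  linarith [h.1, h.2]

namespace Par

variable (A : Par)

theorem a_re : |A.a.re| ≤ 1 / 1000 := by
  have h := Complex.abs_re_le_norm (A.a - I)
  simp at h
  linarith [A.ha]

theorem a_im : |A.a.im - 1| ≤ 1 / 1000 := by
  have h := Complex.abs_im_le_norm (A.a - I)
  simp at h
  linarith [A.ha]

theorem b_re : |A.b.re| ≤ 1 / 1000 := by
  have h := Complex.abs_re_le_norm (A.b + I)
  simp at h
  linarith [A.hb]

theorem b_im : |A.b.im + 1| ≤ 1 / 1000 := by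
  have h := Complex.abs_im_le_norm (A.b + I)
  simp at h
  linarith [A.hb]

/-- the extended sequence of positions -/
def ext {N : ℕ} (z : Fin N → ℂ) (k : ℕ) : ℂ :=
  if k = 0 then A.a else if h : k - 1 < N then z ⟨k - 1, h⟩ else A.b

/-- bounds for the extended sequence -/
structure Bd (z : ℂ) : Prop where
  n : ‖z‖ ≤ 2
  im : |z.im| ≤ 101 / 100

theorem bd_of_InR {z : ℂ} (h : InR z) : Bd z :=
  ⟨by linarith [h.norm_le], by linarith [h.2]⟩

theorem bd_a : Bd A.a := by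
  refine ⟨?_, ?_⟩
  · have := norm_add_le (A.a - I) I
    simp at this
    linarith [A.ha]
  · have := abs_le.1 A.a_im
    rw [abs_le]; constructor <;> linarith

theorem bd_b : Bd A.b := by
  refine ⟨?_, ?_⟩
  · have := norm_sub_le (A.b + I) I
    simp at this
    linarith [A.hb]
  · have := abs_le.1 A.b_im
    rw [abs_le]; constructor <;> linarith

theorem bd_ext {N : ℕ} {z : Fin N → ℂ} (hz : ∀ i, InR (z i)) (k : ℕ) : Bd (A.ext z k) := by
  unfold ext
  split_ifs with h1 h2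
  · exact A.bd_a
  · exact bd_of_InR (hz _)
  · exact A.bd_b

/-- the iteration map -/
def T {N : ℕ} (z : Fin N → ℂ) (i : Fin N) : ℂ :=
  z i + (2 / 7 : ℂ) * ((Dd : ℂ) * F (z i) (A.ext z i) (A.ext z (i + 2)) (A.q ((i + 1) % 2)))

theorem Dd_val : (40 : ℝ) / Dd = 1 / 25000 := by norm_num [Dd]

/-- one step of the map, compared with the origin -/
theorem step_bound {z n m : ℂ} {q : Fin 3 → ℂ} (hz : InR z) (hn : Bd n) (hm : Bd m)
    (hq : ∀ j, ‖q j‖ ≤ 1 / 1000) : InR (z + (2 / 7 : ℂ) * ((Dd : ℂ) * F z n m q)) := by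
  have hz1 := hz.norm_le
  have h0 : ‖(0:ℂ)‖ ≤ 2 := by simp
  have hq2 : ∀ j, ‖q j‖ ≤ 2 := fun j => by linarith [hq j]
  have hd := F_diff (z := 0) (n := 0) (m := 0) (q := fun _ => 0) h0 h0 h0 (by linarith : ‖z‖ ≤ 2) hn.n hm.n
    (fun _ => h0) hq2
  rw [F_zero, Dd_val] at hd
  simp only [sub_zero] at hd
  have hsq : ∑ j, ‖q j‖ ≤ 3 / 1000 := by
    rw [Fin.sum_univ_three]
    linarith [hq 0, hq 1, hq 2]
  have hPq : ‖∑ j, P (w j) (q j)‖ ≤ 3 / 1000 := by
    refine (norm_sum_le _ _).trans (le_trans (Finset.sum_le_sum fun j _ => norm_P_le (norm_w j) _) hsq)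
  set E := (Dd : ℂ) * F z n m q -
      ((((n).im + (m).im - 2 * (z).im : ℝ) : ℂ) * I - (3 / 2 : ℂ) * (z) +
        ∑ j, P (w j) (q j)) with hE
  have hEn : ‖E‖ ≤ 1 / 2000 := by
    refine hd.trans ?_
    have h1 := hn.n
    have h2 := hm.n
    linarith
  set Q := ∑ j, P (w j) (q j) with hQ
  have e : z + (2 / 7 : ℂ) * ((Dd : ℂ) * F z n m q) =
      ((4 / 7 * z.re : ℝ) : ℂ) + ((2 / 7 * (n.im + m.im) : ℝ) : ℂ) * I + (2 / 7 : ℂ) * Q + (2 / 7 : ℂ) * E := by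
    rw [hE]
    apply Complex.ext
    · simp
      ring
    · simp
      ring
  rw [e]
  have hQre := (Complex.abs_re_le_norm Q).trans hPq
  have hQim := (Complex.abs_im_le_norm Q).trans hPq
  have hEre := (Complex.abs_re_le_norm E).trans hEn
  have hEim := (Complex.abs_im_le_norm E).trans hEn
  rw [abs_le] at hQre hQim hEre hEim
  have g1 := abs_le.1 hz.1
  have g2 := abs_le.1 hn.im
  have g3 := abs_le.1 hm.im
  constructor
  · have e1 : (((4 / 7 * z.re : ℝ) : ℂ) + ((2 / 7 * (n.im + m.im) : ℝ) : ℂ) * I + (2 / 7 : ℂ) * Q +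
        (2 / 7 : ℂ) * E).re = 4 / 7 * z.re + 2 / 7 * Q.re + 2 / 7 * E.re := by
      simp
    rw [e1, abs_le]
    constructor <;> linarith
  · have e1 : (((4 / 7 * z.re : ℝ) : ℂ) + ((2 / 7 * (n.im + m.im) : ℝ) : ℂ) * I + (2 / 7 : ℂ) * Q +
        (2 / 7 : ℂ) * E).im = 2 / 7 * (n.im + m.im) + 2 / 7 * Q.im + 2 / 7 * E.im := by
      simp
    rw [e1, abs_le]
    constructor <;> linarith

/-- contraction estimate for one step -/
theorem step_contr {z n m z' n' m' : ℂ} {q : Fin 3 → ℂ} (hz : InR z) (hn : Bd n) (hm : Bd m)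
    (hz' : InR z') (hn' : Bd n') (hm' : Bd m')
    (hq : ∀ j, ‖q j‖ ≤ 1 / 1000) {d : ℝ} (h1 : ‖z' - z‖ ≤ d) (h2 : ‖n' - n‖ ≤ d) (h3 : ‖m' - m‖ ≤ d) :
    ‖(z' + (2 / 7 : ℂ) * ((Dd : ℂ) * F z' n' m' q)) - (z + (2 / 7 : ℂ) * ((Dd : ℂ) * F z n m q))‖ ≤
      9 / 10 * d := by
  have hz1 := hz.norm_le
  have hz1' := hz'.norm_le
  have hq2 : ∀ j, ‖q j‖ ≤ 2 := fun j => by linarith [hq j]
  have hd0 : 0 ≤ d := (norm_nonneg _).trans h1
  have hd := F_diff (z := z) (n := n) (m := m) (q := q) (q' := q) (by linarith) hn.n hm.n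
    (by linarith : ‖z'‖ ≤ 2) hn'.n hm'.n hq2 hq2
  rw [Dd_val] at hd
  simp only [sub_self, P_zero, Finset.sum_const_zero, norm_zero, add_zero] at hd
  set E := (Dd : ℂ) * (F z' n' m' q - F z n m q) -
      ((((n' - n).im + (m' - m).im - 2 * (z' - z).im : ℝ) : ℂ) * I - (3 / 2 : ℂ) * (z' - z)) with hE
  have hEn : ‖E‖ ≤ 7 / 25000 * d := by
    refine hd.trans ?_
    linarith
  have e : (z' + (2 / 7 : ℂ) * ((Dd : ℂ) * F z' n' m' q)) - (z + (2 / 7 : ℂ) * ((Dd : ℂ) * F z n m q)) =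
      (⟨4 / 7 * (z' - z).re, 2 / 7 * ((n' - n).im + (m' - m).im)⟩ : ℂ) + (2 / 7 : ℂ) * E := by
    rw [hE]
    apply Complex.ext
    · simp
      ring
    · simp
      ring
  rw [e]
  refine (norm_add_le _ _).trans ?_
  have n1 : ‖(⟨4 / 7 * (z' - z).re, 2 / 7 * ((n' - n).im + (m' - m).im)⟩ : ℂ)‖ ≤ 89 / 100 * d := by
    have a1 : |(z' - z).re| ≤ d := (Complex.abs_re_le_norm _).trans h1
    have a2 : |(n' - n).im| ≤ d := (Complex.abs_im_le_norm _).trans h2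
    have a3 : |(m' - m).im| ≤ d := (Complex.abs_im_le_norm _).trans h3
    rw [abs_le] at a1 a2 a3
    have hsq : ‖(⟨4 / 7 * (z' - z).re, 2 / 7 * ((n' - n).im + (m' - m).im)⟩ : ℂ)‖ ^ 2 ≤ (89 / 100 * d) ^ 2 := by
      rw [sq_norm_eq]
      simp only [ip]
      have b1 : (z' - z).re * (z' - z).re ≤ d * d := by nlinarith
      have b2 : ((n' - n).im + (m' - m).im) * ((n' - n).im + (m' - m).im) ≤ (2 * d) * (2 * d) := by nlinarith
      nlinarith
    exact (sq_le_sq₀ (norm_nonneg _) (by positivity)).1 hsq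
  have n2 : ‖(2 / 7 : ℂ) * E‖ ≤ 1 / 100 * d := by
    rw [norm_mul]
    have : ‖(2 / 7 : ℂ)‖ = 2 / 7 := by
      rw [norm_div]; simp
    rw [this]
    linarith
  linarith

theorem ext_lip {N : ℕ} {z z' : Fin N → ℂ} {d : ℝ} (hd : 0 ≤ d) (h : ∀ i, ‖z' i - z i‖ ≤ d) (k : ℕ) :
    ‖A.ext z' k - A.ext z k‖ ≤ d := by
  unfold ext
  split_ifs with h1 h2
  · simpa using hd
  · exact h _
  · simpa using hd

theorem exists_fixed (N : ℕ) : ∃ z : Fin N → ℂ, (∀ i, InR (z i)) ∧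
    ∀ i : Fin N, F (z i) (A.ext z i) (A.ext z (i + 2)) (A.q ((i + 1) % 2)) = 0 := by
  let s : Set (Fin N → ℂ) := {z | ∀ i, InR (z i)}
  have hcl : IsClosed s := by
    have : s = ⋂ i, ({z : Fin N → ℂ | |(z i).re| ≤ 1 / 100} ∩ {z : Fin N → ℂ | |(z i).im| ≤ 3 / 4}) := by
      ext z
      simp only [s, InR, Set.mem_iInter, Set.mem_inter_iff]
      rfl
    rw [this]
    refine isClosed_iInter fun i => IsClosed.inter ?_ ?_
    · exact isClosed_le (by fun_prop) continuous_const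
    · exact isClosed_le (by fun_prop) continuous_const
  have hmaps : Set.MapsTo A.T s s := by
    intro z hz i
    exact step_bound (hz i) (A.bd_ext hz _) (A.bd_ext hz _) (A.hq _)
  have hcon : ContractingWith (9 / 10 : NNReal) (hmaps.restrict A.T s s) := by
    refine ⟨by rw [← NNReal.coe_lt_coe]; norm_num, ?_⟩
    refine LipschitzWith.of_dist_le_mul fun x y => ?_
    have hx : x.1 ∈ s := x.2
    have hy : y.1 ∈ s := y.2
    rw [Subtype.dist_eq, Subtype.dist_eq]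
    have hdd : ∀ i, ‖x.1 i - y.1 i‖ ≤ dist x.1 y.1 := fun i => by
      rw [← dist_eq_norm]; exact dist_le_pi_dist _ _ i
    rw [dist_pi_le_iff (by positivity)]
    intro i
    rw [dist_eq_norm]
    have := step_contr (hy i) (A.bd_ext hy i) (A.bd_ext hy (i + 2)) (hx i) (A.bd_ext hx i)
      (A.bd_ext hx (i + 2)) (A.hq ((i + 1) % 2)) (hdd i) (A.ext_lip dist_nonneg hdd i)
      (A.ext_lip dist_nonneg hdd (i + 2))
    have e : ((9 / 10 : NNReal) : ℝ) = 9 / 10 := by norm_num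
    rw [e]
    exact this
  have h0 : (fun _ => 0 : Fin N → ℂ) ∈ s := by
    intro i
    simp [InR]
    norm_num
  obtain ⟨z, hz, hfix, _⟩ := hcon.exists_fixedPoint' hcl.isComplete hmaps h0 (by
    exact edist_ne_top _ _)
  refine ⟨z, hz, fun i => ?_⟩
  have h := congrFun hfix i
  change z i + (2 / 7 : ℂ) * ((Dd : ℂ) * F (z i) (A.ext z i) (A.ext z (i + 2)) (A.q ((i + 1) % 2))) = z i at h
  have h1 : (2 / 7 : ℂ) * ((Dd : ℂ) * F (z i) (A.ext z i) (A.ext z (i + 2)) (A.q ((i + 1) % 2))) = 0 := by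
    linear_combination h
  have hDc : (Dd : ℂ) ≠ 0 := by
    have : (0:ℝ) < Dd := by norm_num [Dd]
    exact_mod_cast this.ne'
  rcases mul_eq_zero.1 h1 with h2 | h2
  · norm_num at h2
  · rcases mul_eq_zero.1 h2 with h3 | h3
    · exact absurd h3 hDc
    · exact h3

/-- the chain of balanced points -/
theorem exists_chain (N : ℕ) : ∃ Z : ℕ → ℂ, Z 0 = A.a ∧ Z (N + 1) = A.b ∧
    (∀ k, 1 ≤ k → k ≤ N → InR (Z k)) ∧ (∀ k, Bd (Z k)) ∧
    ∀ k, 1 ≤ k → k ≤ N → F (Z k) (Z (k - 1)) (Z (k + 1)) (A.q (k % 2)) = 0 := by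
  obtain ⟨z, hz, hF⟩ := A.exists_fixed N
  have hext : ∀ k (h1 : 1 ≤ k) (h2 : k ≤ N), A.ext z k = z ⟨k - 1, by omega⟩ := by
    intro k h1 h2
    unfold ext
    rw [if_neg (by omega), dif_pos (by omega)]
  refine ⟨A.ext z, ?_, ?_, ?_, A.bd_ext hz, ?_⟩
  · simp [ext]
  · unfold ext
    rw [if_neg (by omega), dif_neg (by omega)]
  · intro k h1 h2
    rw [hext k h1 h2]
    exact hz _
  · intro k h1 h2
    have := hF ⟨k - 1, by omega⟩
    rw [hext k h1 h2]
    have e1 : k - 1 + 2 = k + 1 := by omega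
    have e2 : (k - 1 + 1) % 2 = k % 2 := by congr 1; omega
    simp only [e1, e2] at this
    exact this

end Par

end Pool.Agent.H950R3
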