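import Mathlib
import Pool.Agent.H950R3.ChainR

noncomputable section

namespace Pool.Agent.H950R3

open Complex

/-- the defect of the cone condition -/
def phi (e : ℂ) : ℝ := 4 * |e.re| + e.im

theorem phi_add (e f : ℂ) : phi (e + f) ≤ phi e + phi f := by
  unfold phi
  have := abs_add_le e.re f.re
  simp only [Complex.add_re, Complex.add_im]
  linarith

/-- the linearised relation between consecutive differences -/
theorem rel_real {ex ey x1 y1 x2 y2 E : ℝ}
    (hE : E ≤ 1 / 25000 * ((|x1| + |x2| + |y1 + y2|) + 5 * (|ex| + |ey|)))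
    (h1 : 3 / 2 * |ex| ≤ E) (h2 : |(y1 + y2) - 7 / 2 * ey| ≤ E) :
    (∀ M : ℝ, 0 < M → 4 * |x1| + y1 ≤ M → 4 * |x2| + y2 ≤ M → 4 * |ex| + ey < M) ∧
    (4 * |x1| + y1 ≤ 0 → 4 * |x2| + y2 ≤ 0 → 4 * |ex| + ey ≤ 0 → y1 < 0 → ey < 0) := by
  have p1 := abs_nonneg x1
  have p2 := abs_nonneg x2
  have p3 := abs_nonneg ex
  have h2' := abs_le.1 h2
  constructor
  · intro M hM a1 a2
    rcases abs_cases (y1 + y2) with ⟨b1, b2⟩ | ⟨b1, b2⟩ <;>
    rcases abs_cases ey with ⟨c1, c2⟩ | ⟨c1, c2⟩ <;> rw [b1, c1] at hE <;> linarith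
  · intro a1 a2 a3 a4
    rcases abs_cases (y1 + y2) with ⟨b1, b2⟩ | ⟨b1, b2⟩ <;>
    rcases abs_cases ey with ⟨c1, c2⟩ | ⟨c1, c2⟩ <;> rw [b1, c1] at hE <;> linarith

namespace Par

variable (A : Par)

/-- a chain of balanced points -/
structure IsChain (N : ℕ) (Z : ℕ → ℂ) : Prop where
  z0 : Z 0 = A.a
  zN : Z (N + 1) = A.b
  inR : ∀ k, 1 ≤ k → k ≤ N → InR (Z k)
  bd : ∀ k, Bd (Z k)
  bal : ∀ k, 1 ≤ k → k ≤ N → F (Z k) (Z (k - 1)) (Z (k + 1)) (A.q (k % 2)) = 0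

variable {A}
variable {N : ℕ} {Z : ℕ → ℂ}

/-- difference of the two neighbours of `Z (k+1)` -/
def df (Z : ℕ → ℂ) (k : ℕ) : ℂ := Z (k + 2) - Z k

theorem IsChain.rel (h : A.IsChain N Z) {k : ℕ} (hk : k + 3 ≤ N) :
    3 / 2 * |(df Z (k + 1)).re| ≤ 1 / 25000 * (‖df Z k + df Z (k + 2)‖ + 5 * ‖df Z (k + 1)‖) ∧
    |(df Z k + df Z (k + 2)).im - 7 / 2 * (df Z (k + 1)).im| ≤
      1 / 25000 * (‖df Z k + df Z (k + 2)‖ + 5 * ‖df Z (k + 1)‖) := by
  have b1 := h.bal (k + 1) (by omega) (by omega)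
  have b2 := h.bal (k + 3) (by omega) (by omega)
  have e0 : (k + 3) % 2 = (k + 1) % 2 := by omega
  have e1 : k + 3 - 1 = k + 2 := by omega
  have e2 : k + 3 + 1 = k + 4 := by omega
  have e3 : k + 1 - 1 = k := by omega
  have e4 : k + 1 + 1 = k + 2 := by omega
  rw [e0, e1, e2] at b2
  rw [e3, e4, F_comm] at b1
  have hq2 : ∀ j, ‖A.q ((k + 1) % 2) j‖ ≤ 2 := fun j => by linarith [A.hq ((k + 1) % 2) j]
  have hd := F_diff (h.bd (k + 1)).n (h.bd (k + 2)).n (h.bd k).n (h.bd (k + 3)).n (h.bd (k + 2)).n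
    (h.bd (k + 4)).n hq2 hq2
  rw [Dd_val, b1, b2] at hd
  simp only [sub_self, P_zero, Finset.sum_const_zero, norm_zero, add_zero, mul_zero, zero_sub,
    Complex.zero_im, zero_add] at hd
  have hH : Z (k + 4) - Z k = df Z k + df Z (k + 2) := by
    unfold df; ring
  have he : Z (k + 3) - Z (k + 1) = df Z (k + 1) := by
    unfold df; ring
  rw [hH, he] at hd
  rw [norm_neg] at hd
  set H := df Z k + df Z (k + 2)
  set e := df Z (k + 1)
  have r1 := (Complex.abs_re_le_norm _).trans hd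
  have r2 := (Complex.abs_im_le_norm _).trans hd
  simp at r1 r2
  have c1 : |(3 / 2 : ℝ)| = 3 / 2 := by norm_num
  rw [c1] at r1
  have c2 : H.im - 2 * e.im - 3 / 2 * e.im = H.im - 7 / 2 * e.im := by ring
  rw [c2] at r2
  constructor
  · linarith
  · linarith

theorem df_bd0 (h : A.IsChain N Z) (hN : 2 ≤ N) : phi (df Z 0) ≤ 0 ∧ (df Z 0).im < 0 := by
  have h1 := h.inR 2 (by norm_num) hN
  have e : df Z 0 = Z 2 - A.a := by unfold df; rw [h.z0]
  rw [e]
  unfold phi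
  have g1 := abs_le.1 h1.1
  have g2 := abs_le.1 h1.2
  have g3 := abs_le.1 A.a_re
  have g4 := abs_le.1 A.a_im
  have g5 : |(Z 2 - A.a).re| ≤ 11 / 1000 := by
    rw [Complex.sub_re, abs_le]; constructor <;> linarith
  have g6 : (Z 2 - A.a).im ≤ - (249 / 1000) := by
    rw [Complex.sub_im]; linarith
  constructor <;> linarith

theorem df_bdN (h : A.IsChain N Z) (hN : 2 ≤ N) : phi (df Z (N - 1)) ≤ 0 ∧ (df Z (N - 1)).im < 0 := by
  have h1 := h.inR (N - 1) (by omega) (by omega)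
  have e : df Z (N - 1) = A.b - Z (N - 1) := by
    unfold df
    have : N - 1 + 2 = N + 1 := by omega
    rw [this, h.zN]
  rw [e]
  unfold phi
  have g1 := abs_le.1 h1.1
  have g2 := abs_le.1 h1.2
  have g3 := abs_le.1 A.b_re
  have g4 := abs_le.1 A.b_im
  have g5 : |(A.b - Z (N - 1)).re| ≤ 11 / 1000 := by
    rw [Complex.sub_re, abs_le]; constructor <;> linarith
  have g6 : (A.b - Z (N - 1)).im ≤ - (249 / 1000) := by
    rw [Complex.sub_im]; linarith
  constructor <;> linarith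

theorem IsChain.rel' (h : A.IsChain N Z) {k : ℕ} (hk : k + 3 ≤ N) :
    (∀ M : ℝ, 0 < M → phi (df Z k) ≤ M → phi (df Z (k + 2)) ≤ M → phi (df Z (k + 1)) < M) ∧
    (phi (df Z k) ≤ 0 → phi (df Z (k + 2)) ≤ 0 → phi (df Z (k + 1)) ≤ 0 → (df Z k).im < 0 →
      (df Z (k + 1)).im < 0) := by
  obtain ⟨h1, h2⟩ := h.rel (k := k) (by omega)
  refine rel_real (x1 := (df Z k).re) (x2 := (df Z (k + 2)).re) (y1 := (df Z k).im)
    (y2 := (df Z (k + 2)).im) (ex := (df Z (k + 1)).re) (ey := (df Z (k + 1)).im)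
    (E := 1 / 25000 * (‖df Z k + df Z (k + 2)‖ + 5 * ‖df Z (k + 1)‖)) ?_ h1 ?_
  · have a1 := Complex.norm_le_abs_re_add_abs_im (df Z k + df Z (k + 2))
    have a2 := Complex.norm_le_abs_re_add_abs_im (df Z (k + 1))
    have a3 := abs_add_le (df Z k).re (df Z (k + 2)).re
    rw [Complex.add_re, Complex.add_im] at a1
    linarith
  · rw [Complex.add_im] at h2
    exact h2

theorem cone_le (h : A.IsChain N Z) (hN : 2 ≤ N) : ∀ k, k ≤ N - 1 → phi (df Z k) ≤ 0 := by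
  obtain ⟨k0, hk0, hmax⟩ := Finset.exists_max_image (Finset.range N) (fun k => phi (df Z k))
    ⟨0, Finset.mem_range.2 (by omega)⟩
  rw [Finset.mem_range] at hk0
  have hle : phi (df Z k0) ≤ 0 := by
    by_contra hcon
    push Not at hcon
    have hk1 : k0 ≠ 0 := by
      rintro rfl
      linarith [(df_bd0 h hN).1]
    have hk2 : k0 ≠ N - 1 := by
      intro e
      rw [e] at hcon
      linarith [(df_bdN h hN).1]
    obtain ⟨m, rfl⟩ : ∃ m, k0 = m + 1 := ⟨k0 - 1, by omega⟩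
    have := (h.rel' (k := m) (by omega)).1 _ hcon (hmax m (Finset.mem_range.2 (by omega)))
      (hmax (m + 2) (Finset.mem_range.2 (by omega)))
    exact lt_irrefl _ this
  intro k hk
  exact (hmax k (Finset.mem_range.2 (by omega))).trans hle

theorem cone_lt (h : A.IsChain N Z) (hN : 2 ≤ N) : ∀ k, k ≤ N - 1 → (df Z k).im < 0 := by
  intro k
  induction k with
  | zero => intro _; exact (df_bd0 h hN).2
  | succ k ih =>
    intro hk
    by_cases hk2 : k + 1 = N - 1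
    · rw [hk2]; exact (df_bdN h hN).2
    · exact (h.rel' (k := k) (by omega)).2 (cone_le h hN k (by omega)) (cone_le h hN (k + 2) (by omega))
        (cone_le h hN (k + 1) (by omega)) (ih (by omega))

/-- points of the chain with the same parity are strictly ordered, in a steep direction -/
theorem steep (h : A.IsChain N Z) (hN : 2 ≤ N) : ∀ m i, i + 2 * (m + 1) ≤ N + 1 →
    phi (Z (i + 2 * (m + 1)) - Z i) ≤ 0 ∧ (Z (i + 2 * (m + 1)) - Z i).im < 0 := by
  intro m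
  induction m with
  | zero =>
    intro i hi
    have e : Z (i + 2 * (0 + 1)) - Z i = df Z i := rfl
    rw [e]
    exact ⟨cone_le h hN i (by omega), cone_lt h hN i (by omega)⟩
  | succ m ih =>
    intro i hi
    obtain ⟨h1, h2⟩ := ih i (by omega)
    have e : Z (i + 2 * (m + 1 + 1)) - Z i = df Z (i + 2 * (m + 1)) + (Z (i + 2 * (m + 1)) - Z i) := by
      unfold df
      have : i + 2 * (m + 1 + 1) = i + 2 * (m + 1) + 2 := by ring
      rw [this]; ring
    rw [e]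
    have h3 := cone_le h hN (i + 2 * (m + 1)) (by omega)
    have h4 := cone_lt h hN (i + 2 * (m + 1)) (by omega)
    refine ⟨(phi_add _ _).trans (by linarith), ?_⟩
    rw [Complex.add_im]; linarith

theorem steep' (h : A.IsChain N Z) (hN : 2 ≤ N) {i j : ℕ} (hi : i ≤ N + 1) (hj : j ≤ N + 1)
    (hp : i % 2 = j % 2) (hne : i ≠ j) :
    4 * |(Z i - Z j).re| ≤ |(Z i - Z j).im| ∧ (Z i - Z j).im ≠ 0 := by
  rcases lt_or_gt_of_ne hne with hlt | hlt
  · obtain ⟨m, hm⟩ : ∃ m, j = i + 2 * (m + 1) := ⟨(j - i) / 2 - 1, by omega⟩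
    subst hm
    obtain ⟨h1, h2⟩ := steep h hN m i hj
    unfold phi at h1
    have e : Z i - Z (i + 2 * (m + 1)) = - (Z (i + 2 * (m + 1)) - Z i) := by ring
    rw [e, Complex.neg_re, Complex.neg_im, abs_neg, abs_neg, abs_of_neg h2]
    exact ⟨by linarith, by intro h0; linarith⟩
  · obtain ⟨m, hm⟩ : ∃ m, i = j + 2 * (m + 1) := ⟨(i - j) / 2 - 1, by omega⟩
    subst hm
    obtain ⟨h1, h2⟩ := steep h hN m j hi
    unfold phi at h1
    rw [abs_of_neg h2]
    exact ⟨by linarith, by intro h0; linarith⟩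

theorem exists_isChain (A : Par) (N : ℕ) : ∃ Z, A.IsChain N Z := by
  obtain ⟨Z, h1, h2, h3, h4, h5⟩ := A.exists_chain N
  exact ⟨Z, ⟨h1, h2, h3, h4, h5⟩⟩

end Par

end Pool.Agent.H950R3
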