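import Mathlib
import Pool.Agent.H950R3.Cone
import Pool.Agent.Helper544.Planar

noncomputable section
open scoped Classical

namespace Pool.Agent.H950R3

open Complex Pool.Agent.Helper544.Planar

/-- the linear isometry relating the coordinates of the two clusters -/
def sg (c : ℕ) (v : ℂ) : ℂ := if c = 1 then v else - (starRingEnd ℂ) v

/-- the placement of the clusters in the plane -/
def pl (c : ℕ) (z : ℂ) : ℂ := if c = 1 then z else (Dd : ℂ) - (starRingEnd ℂ) z

theorem pl_sub (c : ℕ) (x y : ℂ) : pl c x - pl c y = sg c (x - y) := by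
  unfold pl sg
  split_ifs
  · rfl
  · simp

theorem norm_sg (c : ℕ) (v : ℂ) : ‖sg c v‖ = ‖v‖ := by
  unfold sg
  split_ifs
  · rfl
  · rw [norm_neg, Complex.norm_conj]

theorem sg_add (c : ℕ) (u v : ℂ) : sg c (u + v) = sg c u + sg c v := by
  unfold sg
  split_ifs
  · rfl
  · simp; ring

theorem sg_zero (c : ℕ) : sg c 0 = 0 := by
  unfold sg; split_ifs <;> simp

theorem sg_sum (c : ℕ) (f : Fin 3 → ℂ) : sg c (∑ j, f j) = ∑ j, sg c (f j) := by
  rw [Fin.sum_univ_three, Fin.sum_univ_three, sg_add, sg_add]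

theorem sg_U (c : ℕ) (v : ℂ) : sg c v / (‖sg c v‖ : ℂ) = sg c (U v) := by
  rw [norm_sg]
  unfold sg U
  split_ifs
  · rfl
  · simp [neg_div]

theorem pl_inj {c : ℕ} {x y : ℂ} (h : pl c x = pl c y) : x = y := by
  have h1 := pl_sub c x y
  rw [h, sub_self] at h1
  have h2 : ‖x - y‖ = 0 := by rw [← norm_sg c, ← h1, norm_zero]
  exact sub_eq_zero.1 (norm_eq_zero.1 h2)

theorem pl_ne_sub (c d : ℕ) (hc : c < 2) (hd : d < 2) (hcd : c ≠ d) (x y : ℂ) :
    pl d y - pl c x = sg c ((Dd : ℂ) * 1 + nb x y) := by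
  have : (c = 0 ∧ d = 1) ∨ (c = 1 ∧ d = 0) := by omega
  rcases this with ⟨rfl, rfl⟩ | ⟨rfl, rfl⟩
  · unfold pl sg nb
    simp
    ring
  · unfold pl sg nb
    simp
    ring

theorem sqrt3_gt : (17 / 10 : ℝ) < Real.sqrt 3 := by
  rw [Real.lt_sqrt (by norm_num)]; norm_num

theorem sqrt3_lt : Real.sqrt 3 < (18 / 10 : ℝ) := by
  rw [Real.sqrt_lt' (by norm_num)]; norm_num

/-- coordinates of the outer points -/
theorem outer_re (A : Par) (c : ℕ) (j : Fin 3) :
    ((Dd : ℂ) * w j + A.q c j).re ≤ - 499999 ∧ - 1000001 ≤ ((Dd : ℂ) * w j + A.q c j).re := by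
  have h := abs_le.1 ((Complex.abs_re_le_norm _).trans (A.hq c j))
  fin_cases j <;> simp [w, Dd] at h ⊢ <;> constructor <;> linarith

theorem outer_im0 (A : Par) (c : ℕ) : |((Dd : ℂ) * w 0 + A.q c 0).im| ≤ 1 := by
  have h := (Complex.abs_im_le_norm _).trans (A.hq c 0)
  simp [w, Dd] at h ⊢
  linarith

theorem outer_im1 (A : Par) (c : ℕ) : 840000 ≤ ((Dd : ℂ) * w 1 + A.q c 1).im ∧
    ((Dd : ℂ) * w 1 + A.q c 1).im ≤ 910000 := by
  have h := abs_le.1 ((Complex.abs_im_le_norm _).trans (A.hq c 1))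
  have h1 := sqrt3_gt
  have h2 := sqrt3_lt
  simp [w, Dd] at h ⊢
  constructor <;> linarith

theorem outer_im2 (A : Par) (c : ℕ) : ((Dd : ℂ) * w 2 + A.q c 2).im ≤ - 840000 ∧
    - 910000 ≤ ((Dd : ℂ) * w 2 + A.q c 2).im := by
  have h := abs_le.1 ((Complex.abs_im_le_norm _).trans (A.hq c 2))
  have h1 := sqrt3_gt
  have h2 := sqrt3_lt
  simp [w, Dd] at h ⊢
  constructor <;> linarith

theorem outer_im (A : Par) (c : ℕ) (j : Fin 3) : |((Dd : ℂ) * w j + A.q c j).im| ≤ 910000 := by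
  fin_cases j
  · exact (outer_im0 A c).trans (by norm_num)
  · have := outer_im1 A c
    rw [abs_le]; constructor
    · exact le_trans (by norm_num) this.1
    · exact this.2
  · have := outer_im2 A c
    rw [abs_le]; constructor
    · exact this.2
    · exact le_trans this.1 (by norm_num)

/-- non-steep vectors -/
def NS (v : ℂ) : Prop := |v.im| < 4 * |v.re|

theorem NS.sg {c : ℕ} {v : ℂ} (h : NS v) : NS (sg c v) := by
  unfold NS Pool.Agent.H950R3.sg at *
  split_ifs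
  · exact h
  · simpa using h

theorem NS.not_steep {v : ℂ} (h : NS v) (t : ℝ) (h1 : 4 * |((t : ℂ) * v).re| ≤ |((t : ℂ) * v).im|)
    (h2 : ((t : ℂ) * v).im ≠ 0) : False := by
  unfold NS at h
  simp only [Complex.mul_re, Complex.mul_im, Complex.ofReal_re, Complex.ofReal_im, zero_mul,
    sub_zero, add_zero] at h1 h2
  rw [abs_mul, abs_mul] at h1
  have ht : 0 < |t| := by
    rw [abs_pos]
    rintro rfl
    apply h2; ring
  have h3 : |t| * |v.im| < |t| * (4 * |v.re|) := mul_lt_mul_of_pos_left h ht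
  linarith

/-- two segments sharing two points lie on a common line -/
theorem shared {a b c d p q : ℂ} (hp : p ∈ segment ℝ a b) (hp' : p ∈ segment ℝ c d)
    (hq : q ∈ segment ℝ a b) (hq' : q ∈ segment ℝ c d) (hpq : p ≠ q) :
    ∃ l m : ℝ, d - c = (l : ℂ) * (b - a) ∧ c - a = (m : ℂ) * (b - a) := by
  obtain ⟨s, _, _, hs⟩ := mem_seg.1 hp
  obtain ⟨t, _, _, ht⟩ := mem_seg.1 hq
  obtain ⟨s', _, _, hs'⟩ := mem_seg.1 hp'
  obtain ⟨t', _, _, ht'⟩ := mem_seg.1 hq'
  have hst : s' ≠ t' := by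
    rintro rfl
    exact hpq (hs'.trans ht'.symm)
  have e1 : ((t' - s' : ℝ) : ℂ) * (d - c) = ((t - s : ℝ) : ℂ) * (b - a) := by
    have h1 : q - p = ((t - s : ℝ) : ℂ) * (b - a) := by rw [hs, ht, pt_sub]
    have h2 : q - p = ((t' - s' : ℝ) : ℂ) * (d - c) := by rw [hs', ht', pt_sub]
    rw [← h1, ← h2]
  have hne : ((t' - s' : ℝ) : ℂ) ≠ 0 := by
    exact_mod_cast sub_ne_zero.2 (Ne.symm hst)
  have e2 : d - c = (((t - s) / (t' - s') : ℝ) : ℂ) * (b - a) := by
    apply mul_left_cancel₀ hne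
    rw [e1]
    push_cast
    have : (t' : ℂ) - s' ≠ 0 := by exact_mod_cast hne
    field_simp
  refine ⟨(t - s) / (t' - s'), s - s' * ((t - s) / (t' - s')), e2, ?_⟩
  have e3 : a + (s : ℂ) * (b - a) = c + (s' : ℂ) * (d - c) := by
    have := hs.symm.trans hs'
    simpa [pt] using this
  have e4 : c - a = (s : ℂ) * (b - a) - (s' : ℂ) * (d - c) := by linear_combination -e3
  rw [e4, e2]
  push_cast
  ring

/-- opposite segments issuing from one point -/
theorem opposite {a b d p q : ℂ} (hb : a.re < b.re) (hd : d.re < a.re) (hp : p ∈ segment ℝ a b)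
    (hp' : p ∈ segment ℝ a d) (hq : q ∈ segment ℝ a b) (hq' : q ∈ segment ℝ a d) : p = q := by
  have key : ∀ z, z ∈ segment ℝ a b → z ∈ segment ℝ a d → z = a := by
    intro z h1 h2
    obtain ⟨s, hs0, hs1, hs⟩ := mem_seg.1 h1
    obtain ⟨t, ht0, ht1, ht⟩ := mem_seg.1 h2
    have e1 := congrArg Complex.re hs
    have e2 := congrArg Complex.re ht
    simp [pt] at e1 e2
    have h3 : 0 ≤ s * (b.re - a.re) := mul_nonneg hs0 (by linarith)
    have h4 : t * (d.re - a.re) ≤ 0 := mul_nonpos_of_nonneg_of_nonpos ht0 (by linarith)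
    have h5 : s * (b.re - a.re) = 0 := by linarith
    have h6 : s = 0 := by
      rcases mul_eq_zero.1 h5 with h | h
      · exact h
      · linarith
    rw [hs, h6, pt_zero]
  rw [key p hp hp', key q hq hq']

end Pool.Agent.H950R3
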