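import Mathlib
import Pool.Agent.H950R3.Draw

noncomputable section
open scoped Classical

namespace Pool.Agent.H950R3

open Complex Pool.Agent.Helper544.Planar

/-- index type of the drawing: the chain and the six outer points -/
abbrev Ix (N : ℕ) := Fin (N + 2) ⊕ (Fin 2 × Fin 3)

/-- positions -/
def posf (A : Par) {N : ℕ} (Z : ℕ → ℂ) : Ix N → ℂ
  | Sum.inl k => pl (k.val % 2) (Z k.val)
  | Sum.inr p => pl p.1.val ((Dd : ℂ) * w p.2 + A.q p.1.val p.2)

/-- adjacency -/
def Wf {N : ℕ} : Ix N → Ix N → ℕ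
  | Sum.inl k, Sum.inl l => if k.val + 1 = l.val ∨ l.val + 1 = k.val then 1 else 0
  | Sum.inl k, Sum.inr p => if 1 ≤ k.val ∧ k.val ≤ N ∧ p.1.val = k.val % 2 then 1 else 0
  | Sum.inr p, Sum.inl k => if 1 ≤ k.val ∧ k.val ≤ N ∧ p.1.val = k.val % 2 then 1 else 0
  | Sum.inr _, Sum.inr _ => 0

theorem Wf_symm {N : ℕ} (x y : Ix N) : Wf x y = Wf y x := by
  rcases x with k | p <;> rcases y with l | q
  · simp only [Wf]
    congr 1
    exact propext or_comm
  · rfl
  · rfl
  · rfl

theorem Wf_diag {N : ℕ} (x : Ix N) : Wf x x = 0 := by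
  rcases x with k | p
  · simp only [Wf]
    rw [if_neg]
    omega
  · rfl

theorem Wf_le {N : ℕ} (x y : Ix N) : Wf x y ≤ 1 := by
  rcases x with k | p <;> rcases y with l | q <;> simp only [Wf] <;> (try split_ifs) <;> norm_num

/-- canonically oriented edges -/
inductive Cn {N : ℕ} : Ix N → Ix N → Prop
  | ch (k l : Fin (N + 2)) (hk : k.val % 2 = 1) (hl : l.val % 2 = 0) (h : k.val + 1 = l.val ∨ l.val + 1 = k.val) :
      Cn (Sum.inl k) (Sum.inl l)
  | bd (k : Fin (N + 2)) (p : Fin 2 × Fin 3) (h1 : 1 ≤ k.val) (h2 : k.val ≤ N) (h3 : p.1.val = k.val % 2) :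
      Cn (Sum.inl k) (Sum.inr p)

theorem exists_Cn {N : ℕ} {x y : Ix N} (h : Wf x y ≠ 0) : Cn x y ∨ Cn y x := by
  rcases x with k | p <;> rcases y with l | q
  · simp only [Wf] at h
    have h' : k.val + 1 = l.val ∨ l.val + 1 = k.val := by
      by_contra hc
      rw [if_neg hc] at h
      exact h rfl
    by_cases hk : k.val % 2 = 1
    · exact Or.inl (Cn.ch k l hk (by omega) h')
    · exact Or.inr (Cn.ch l k (by omega) (by omega) (by tauto))
  · simp only [Wf] at h
    have h' : 1 ≤ k.val ∧ k.val ≤ N ∧ q.1.val = k.val % 2 := by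
      by_contra hc
      rw [if_neg hc] at h
      exact h rfl
    exact Or.inl (Cn.bd k q h'.1 h'.2.1 h'.2.2)
  · simp only [Wf] at h
    have h' : 1 ≤ l.val ∧ l.val ≤ N ∧ p.1.val = l.val % 2 := by
      by_contra hc
      rw [if_neg hc] at h
      exact h rfl
    exact Or.inr (Cn.bd l p h'.1 h'.2.1 h'.2.2)
  · simp [Wf] at h

section

variable {A : Par} {N : ℕ} {Z : ℕ → ℂ}

theorem Bd.re_le {z : ℂ} (h : Par.Bd z) : |z.re| ≤ 2 := (Complex.abs_re_le_norm _).trans h.n

theorem Bd.im_le {z : ℂ} (h : Par.Bd z) : |z.im| ≤ 2 := (Complex.abs_im_le_norm _).trans h.n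

/-- the chain vector from an odd vertex to an even vertex -/
theorem ns_chain (hZ : A.IsChain N Z) (k l : ℕ) : NS ((Dd : ℂ) * 1 + nb (Z k) (Z l)) ∧
    0 < ((Dd : ℂ) * 1 + nb (Z k) (Z l)).re := by
  have a1 := abs_le.1 (Bd.re_le (hZ.bd k))
  have a2 := abs_le.1 (Bd.re_le (hZ.bd l))
  have a3 := abs_le.1 (Bd.im_le (hZ.bd k))
  have a4 := abs_le.1 (Bd.im_le (hZ.bd l))
  have e1 : ((Dd : ℂ) * 1 + nb (Z k) (Z l)).re = Dd - (Z l).re - (Z k).re := by
    simp [nb]; ring
  have e2 : ((Dd : ℂ) * 1 + nb (Z k) (Z l)).im = (Z l).im - (Z k).im := by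
    simp [nb]
  unfold NS
  rw [e1, e2]
  have hD : Dd = 1000000 := rfl
  rw [hD]
  have h1 : |(Z l).im - (Z k).im| ≤ 4 := by rw [abs_le]; constructor <;> linarith
  have h2 : (0:ℝ) < 1000000 - (Z l).re - (Z k).re := by linarith
  rw [abs_of_pos h2]
  constructor <;> linarith

/-- the vector from a chain vertex to an outer point -/
theorem ns_outer (hZ : A.IsChain N Z) (k c : ℕ) (j : Fin 3) :
    NS ((Dd : ℂ) * w j + A.q c j - Z k) ∧ ((Dd : ℂ) * w j + A.q c j - Z k).re < 0 := by
  have a1 := abs_le.1 (Bd.re_le (hZ.bd k))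
  have a3 := abs_le.1 (Bd.im_le (hZ.bd k))
  have b1 := outer_re A c j
  have b2 := abs_le.1 (outer_im A c j)
  unfold NS
  rw [Complex.sub_re, Complex.sub_im]
  have h2 : ((Dd : ℂ) * w j + A.q c j).re - (Z k).re < 0 := by linarith
  rw [abs_of_neg h2]
  refine ⟨?_, h2⟩
  rw [abs_lt]; constructor <;> linarith

theorem not_par (hZ : A.IsChain N Z) (k c : ℕ) {j j' : Fin 3} (hj : j ≠ j') (t : ℝ) :
    (Dd : ℂ) * w j' + A.q c j' - Z k ≠ (t : ℂ) * ((Dd : ℂ) * w j + A.q c j - Z k) := by
  intro h
  have hv := (ns_outer hZ k c j).2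
  have hu := (ns_outer hZ k c j').2
  have e1 := congrArg Complex.re h
  have e2 := congrArg Complex.im h
  have a3 := abs_le.1 (Bd.im_le (hZ.bd k))
  set v := (Dd : ℂ) * w j + A.q c j - Z k with hvd
  set u := (Dd : ℂ) * w j' + A.q c j' - Z k with hud
  simp only [Complex.mul_re, Complex.mul_im, Complex.ofReal_re, Complex.ofReal_im, zero_mul,
    sub_zero, add_zero] at e1 e2
  have ht : 0 < t := by
    by_contra hc
    push Not at hc
    have : 0 ≤ t * v.re := mul_nonneg_of_nonpos_of_nonpos hc hv.le
    linarith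
  have a1 := abs_le.1 (Bd.re_le (hZ.bd k))
  have r1 := outer_re A c j
  have r2 := outer_re A c j'
  have rv : v.re = ((Dd : ℂ) * w j + A.q c j).re - (Z k).re := by rw [hvd, Complex.sub_re]
  have ru : u.re = ((Dd : ℂ) * w j' + A.q c j').re - (Z k).re := by rw [hud, Complex.sub_re]
  have iv : v.im = ((Dd : ℂ) * w j + A.q c j).im - (Z k).im := by rw [hvd, Complex.sub_im]
  have iu : u.im = ((Dd : ℂ) * w j' + A.q c j').im - (Z k).im := by rw [hud, Complex.sub_im]
  have t3 : t ≤ 3 := by
    by_contra hc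
    push Not at hc
    have : t * v.re < 3 * v.re := mul_lt_mul_of_neg_right hc hv
    linarith
  have t3' : 1 / 3 ≤ t := by
    by_contra hc
    push Not at hc
    have : 1 / 3 * v.re < t * v.re := mul_lt_mul_of_neg_right hc hv
    linarith
  have i0 := abs_le.1 (outer_im0 A c)
  have i1 := outer_im1 A c
  have i2 := outer_im2 A c
  fin_cases j <;> fin_cases j'
  · exact hj rfl
  · simp only [Fin.mk_zero, Fin.mk_one] at iv iu
    have b1 : v.im ≤ 3 := by linarith
    have b2 : 839998 ≤ u.im := by linarith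
    nlinarith
  · simp only [Fin.zero_eta, Fin.reduceFinMk] at iv iu
    have b1 : -3 ≤ v.im := by linarith
    have b2 : u.im ≤ -839998 := by linarith
    nlinarith
  · simp only [Fin.mk_one, Fin.zero_eta] at iv iu
    have b1 : 839998 ≤ v.im := by linarith
    have b2 : u.im ≤ 3 := by linarith
    nlinarith
  · exact hj rfl
  · simp only [Fin.mk_one, Fin.reduceFinMk] at iv iu
    have b1 : 839998 ≤ v.im := by linarith
    have b2 : u.im ≤ -839998 := by linarith
    nlinarith
  · simp only [Fin.zero_eta, Fin.reduceFinMk] at iv iu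
    have b1 : v.im ≤ -839998 := by linarith
    have b2 : -3 ≤ u.im := by linarith
    nlinarith
  · simp only [Fin.mk_one, Fin.reduceFinMk] at iv iu
    have b1 : v.im ≤ -839998 := by linarith
    have b2 : 839998 ≤ u.im := by linarith
    nlinarith
  · exact hj rfl

/-- same-parity vertices on a common line with a non-steep vector coincide -/
theorem same_of_mul (hZ : A.IsChain N Z) (hN : 2 ≤ N) {k l : Fin (N + 2)} (hp : k.val % 2 = l.val % 2)
    {v : ℂ} (hv : NS v) {t : ℝ}
    (h : posf A Z (Sum.inl l : Ix N) - posf A Z (Sum.inl k : Ix N) = (t : ℂ) * v) : k = l := by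
  by_contra hne
  have hne' : l.val ≠ k.val := fun e => hne (Fin.ext e.symm)
  have h1 := Par.steep' hZ hN (i := l.val) (j := k.val) (by omega) (by omega) hp.symm hne'
  simp only [posf] at h
  rw [hp, pl_sub] at h
  have h2 : 4 * |((t : ℂ) * v).re| ≤ |((t : ℂ) * v).im| ∧ ((t : ℂ) * v).im ≠ 0 := by
    rw [← h]
    unfold sg
    split_ifs
    · exact h1
    · rw [Complex.neg_re, Complex.neg_im, Complex.conj_re, Complex.conj_im, neg_neg, abs_neg]
      exact h1
  exact hv.not_steep t h2.1 h2.2

theorem pos_re_chain (hZ : A.IsChain N Z) (k : Fin (N + 2)) :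
    (k.val % 2 = 1 → |(posf A Z (Sum.inl k : Ix N)).re| ≤ 2) ∧
    (k.val % 2 = 0 → |(posf A Z (Sum.inl k : Ix N)).re - Dd| ≤ 2) := by
  have a1 := Bd.re_le (hZ.bd k.val)
  constructor
  · intro h
    simp only [posf, h, pl, if_true]
    exact a1
  · intro h
    simp only [posf, h, pl]
    rw [if_neg (by norm_num)]
    simpa using a1

theorem pos_re_outer (A : Par) (Z : ℕ → ℂ) (p : Fin 2 × Fin 3) :
    (p.1.val = 1 → (posf A Z (Sum.inr p : Ix N)).re ≤ - 499999) ∧
    (p.1.val = 0 → Dd + 499999 ≤ (posf A Z (Sum.inr p : Ix N)).re) := by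
  have a1 := outer_re A p.1.val p.2
  constructor
  · intro h
    simp only [posf]
    have e : ∀ z, pl p.1.val z = z := by
      intro z; unfold pl; rw [if_pos h]
    rw [e]
    exact a1.1
  · intro h
    simp only [posf]
    have e : ∀ z, (pl p.1.val z).re = Dd - z.re := by
      intro z; unfold pl; rw [if_neg (by omega)]; simp
    rw [e]
    linarith

theorem posf_inj (hZ : A.IsChain N Z) (hN : 2 ≤ N) : Function.Injective (posf A Z : Ix N → ℂ) := by
  have hD : Dd = 1000000 := rfl
  have key1 : ∀ (k : Fin (N + 2)) (p : Fin 2 × Fin 3),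
      posf A Z (Sum.inl k : Ix N) ≠ posf A Z (Sum.inr p : Ix N) := by
    intro k p h
    have h1 := pos_re_chain hZ k
    have h2 := pos_re_outer (N := N) A Z p
    rw [← h] at h2
    have hp := p.1.2
    have hk : k.val % 2 = 0 ∨ k.val % 2 = 1 := by omega
    have hp' : p.1.val = 0 ∨ p.1.val = 1 := by omega
    rw [hD] at h1 h2
    rcases hk with hk | hk <;> rcases hp' with hp' | hp'
    · have := abs_le.1 (h1.2 hk); have := h2.2 hp'; linarith
    · have := abs_le.1 (h1.2 hk); have := h2.1 hp'; linarith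
    · have := abs_le.1 (h1.1 hk); have := h2.2 hp'; linarith
    · have := abs_le.1 (h1.1 hk); have := h2.1 hp'; linarith
  rintro (k | p) (l | q) h
  · by_cases hp : k.val % 2 = l.val % 2
    · have := same_of_mul hZ hN hp (v := 1) (by simp [NS]) (t := 0) (by rw [h]; simp)
      rw [this]
    · exfalso
      have h1 := pos_re_chain hZ k
      have h2 := pos_re_chain hZ l
      rw [h] at h1
      rw [hD] at h1 h2
      have hk : (k.val % 2 = 0 ∧ l.val % 2 = 1) ∨ (k.val % 2 = 1 ∧ l.val % 2 = 0) := by omega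
      rcases hk with ⟨hk, hl⟩ | ⟨hk, hl⟩
      · have := abs_le.1 (h1.2 hk); have := abs_le.1 (h2.1 hl); linarith
      · have := abs_le.1 (h1.1 hk); have := abs_le.1 (h2.2 hl); linarith
  · exact absurd h (key1 k q)
  · exact absurd h.symm (key1 l p)
  · obtain ⟨c, j⟩ := p
    obtain ⟨c', j'⟩ := q
    have h1 := pos_re_outer (N := N) A Z (c, j)
    have h2 := pos_re_outer (N := N) A Z (c', j')
    rw [h] at h1
    rw [hD] at h1 h2
    simp only at h1 h2
    have hc := c.2
    have hc' := c'.2
    by_cases hcc : c.val = c'.val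
    · have hcc' : c = c' := Fin.ext hcc
      subst hcc'
      simp only [posf] at h
      have h3 := pl_inj h
      by_cases hj : j = j'
      · rw [hj]
      · exfalso
        exact not_par hZ 0 c.val hj 1 (by rw [Complex.ofReal_one, one_mul, h3])
    · exfalso
      have hk : (c.val = 0 ∧ c'.val = 1) ∨ (c.val = 1 ∧ c'.val = 0) := by omega
      rcases hk with ⟨hk, hl⟩ | ⟨hk, hl⟩
      · have := h1.2 hk; have := h2.1 hl; linarith
      · have := h1.1 hk; have := h2.2 hl; linarith

theorem vec_chain (Z : ℕ → ℂ) (k l : Fin (N + 2)) (hkl : k.val % 2 ≠ l.val % 2) :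
    posf A Z (Sum.inl l : Ix N) - posf A Z (Sum.inl k : Ix N) =
      sg (k.val % 2) ((Dd : ℂ) * 1 + nb (Z k.val) (Z l.val)) := by
  simp only [posf]
  exact pl_ne_sub _ _ (by omega) (by omega) hkl _ _

theorem vec_outer (Z : ℕ → ℂ) (k : Fin (N + 2)) (p : Fin 2 × Fin 3) (h : p.1.val = k.val % 2) :
    posf A Z (Sum.inr p : Ix N) - posf A Z (Sum.inl k : Ix N) =
      sg (k.val % 2) ((Dd : ℂ) * w p.2 + A.q (k.val % 2) p.2 - Z k.val) := by
  simp only [posf]
  rw [h, pl_sub]

theorem ovl_cn (hZ : A.IsChain N Z) (hN : 2 ≤ N) {x y z t : Ix N} (h1 : Cn x y) (h2 : Cn z t)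
    (hne : ¬ (x = z ∧ y = t)) {p q : ℂ}
    (hp : p ∈ segment ℝ (posf A Z x) (posf A Z y)) (hp' : p ∈ segment ℝ (posf A Z z) (posf A Z t))
    (hq : q ∈ segment ℝ (posf A Z x) (posf A Z y)) (hq' : q ∈ segment ℝ (posf A Z z) (posf A Z t)) :
    p = q := by
  have hD : Dd = 1000000 := rfl
  by_contra hpq
  obtain ⟨lam, mu, e1, e2⟩ := shared hp hp' hq hq' hpq
  cases h1 with
  | ch k l hk hl h =>
    have nv := (ns_chain hZ k.val l.val).1
    have ev := vec_chain (A := A) Z k l (by omega)
    rw [hk] at ev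
    have esg : ∀ v, sg 1 v = v := fun v => by simp [sg]
    rw [esg] at ev
    cases h2 with
    | ch k' l' hk' hl' h' =>
      rw [ev] at e1 e2
      have s1 : k = k' := same_of_mul hZ hN (by omega) nv e2
      have e3 : posf A Z (Sum.inl l' : Ix N) - posf A Z (Sum.inl l : Ix N) =
          ((lam + mu - 1 : ℝ) : ℂ) * ((Dd : ℂ) * 1 + nb (Z k.val) (Z l.val)) := by
        have : posf A Z (Sum.inl l' : Ix N) - posf A Z (Sum.inl l : Ix N) =
          (posf A Z (Sum.inl l' : Ix N) - posf A Z (Sum.inl k' : Ix N)) +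
          (posf A Z (Sum.inl k' : Ix N) - posf A Z (Sum.inl k : Ix N)) -
          (posf A Z (Sum.inl l : Ix N) - posf A Z (Sum.inl k : Ix N)) := by ring
        rw [this, e1, e2, ev]
        push_cast
        ring
      have s2 : l = l' := same_of_mul hZ hN (by omega) nv e3
      exact hne ⟨by rw [s1], by rw [s2]⟩
    | bd k' c' h1' h2' h3' =>
      rw [ev] at e1 e2
      by_cases hk' : k'.val % 2 = 1
      · have s1 : k = k' := same_of_mul hZ hN (by omega) nv e2
        subst s1
        have hre := (ns_chain hZ k.val l.val).2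
        have hre2 := (ns_outer hZ k.val (k.val % 2) c'.2).2
        have eo := vec_outer (A := A) (N := N) Z k c' h3'
        rw [hk, esg] at eo
        rw [hk] at hre2
        apply hpq
        refine opposite ?_ ?_ hp hp' hq hq'
        · rw [← ev, Complex.sub_re] at hre; linarith
        · rw [← eo, Complex.sub_re] at hre2; linarith
      · have hk0 : k'.val % 2 = 0 := by omega
        have e3 : posf A Z (Sum.inl k' : Ix N) - posf A Z (Sum.inl l : Ix N) =
            ((mu - 1 : ℝ) : ℂ) * ((Dd : ℂ) * 1 + nb (Z k.val) (Z l.val)) := by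
          have : posf A Z (Sum.inl k' : Ix N) - posf A Z (Sum.inl l : Ix N) =
            (posf A Z (Sum.inl k' : Ix N) - posf A Z (Sum.inl k : Ix N)) -
            (posf A Z (Sum.inl l : Ix N) - posf A Z (Sum.inl k : Ix N)) := by ring
          rw [this, e2, ev]
          push_cast
          ring
        have s1 : l = k' := same_of_mul hZ hN (by omega) nv e3
        subst s1
        have hre := (ns_chain hZ k.val l.val).2
        have g1 := abs_le.1 ((pos_re_chain hZ l).2 hl)
        have g2 := (pos_re_outer (N := N) A Z c').2 (by omega)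
        apply hpq
        rw [segment_symm] at hp hq
        refine (opposite ?_ ?_ hp' hp hq' hq)
        · rw [hD] at g1 g2; linarith
        · rw [← ev, Complex.sub_re] at hre; linarith
  | bd k c b1 b2 h3 =>
    have nv := ((ns_outer hZ k.val (k.val % 2) c.2).1).sg (c := k.val % 2)
    have ev := vec_outer (A := A) (N := N) Z k c h3
    cases h2 with
    | ch k' l' hk' hl' h' =>
      rw [ev] at e1 e2
      by_cases hk : k.val % 2 = 1
      · have s1 : k = k' := same_of_mul hZ hN (by omega) nv e2
        subst s1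
        have hre := (ns_chain hZ k.val l'.val).2
        have ec := vec_chain (A := A) Z k l' (by omega)
        have esg : ∀ v, sg 1 v = v := fun v => by simp [sg]
        rw [hk', esg] at ec
        have g1 := abs_le.1 ((pos_re_chain hZ k).1 hk)
        have g2 := (pos_re_outer (N := N) A Z c).1 (by omega)
        apply hpq
        refine opposite ?_ ?_ hp' hp hq' hq
        · rw [← ec, Complex.sub_re] at hre; linarith
        · linarith
      · have hk0 : k.val % 2 = 0 := by omega
        have e3 : posf A Z (Sum.inl l' : Ix N) - posf A Z (Sum.inl k : Ix N) =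
            ((lam + mu : ℝ) : ℂ) * sg (k.val % 2) ((Dd : ℂ) * w c.2 + A.q (k.val % 2) c.2 - Z k.val) := by
          have : posf A Z (Sum.inl l' : Ix N) - posf A Z (Sum.inl k : Ix N) =
            (posf A Z (Sum.inl l' : Ix N) - posf A Z (Sum.inl k' : Ix N)) +
            (posf A Z (Sum.inl k' : Ix N) - posf A Z (Sum.inl k : Ix N)) := by ring
          rw [this, e1, e2]
          push_cast
          ring
        have s1 : k = l' := same_of_mul hZ hN (by omega) nv e3
        subst s1
        have hre := (ns_chain hZ k'.val k.val).2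
        have ec := vec_chain (A := A) Z k' k (by omega)
        have esg : ∀ v, sg 1 v = v := fun v => by simp [sg]
        rw [hk', esg] at ec
        have g1 := abs_le.1 ((pos_re_chain hZ k).2 hk0)
        have g2 := (pos_re_outer (N := N) A Z c).2 (by omega)
        apply hpq
        rw [segment_symm] at hp' hq'
        refine opposite ?_ ?_ hp hp' hq hq'
        · rw [hD] at g1 g2; linarith
        · rw [← ec, Complex.sub_re] at hre; linarith
    | bd k' c' h1' h2' h3' =>
      by_cases hkk : k.val % 2 = k'.val % 2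
      · rw [ev] at e1 e2
        have s1 : k = k' := same_of_mul hZ hN hkk nv e2
        subst s1
        have ev' := vec_outer (A := A) (N := N) Z k c' h3'
        have hc : c.2 ≠ c'.2 := by
          intro e
          apply hne
          refine ⟨rfl, ?_⟩
          have : c = c' := Prod.ext (Fin.ext (h3.trans h3'.symm)) e
          rw [this]
        have e3 : posf A Z (Sum.inr c' : Ix N) - posf A Z (Sum.inl k : Ix N) =
            (lam : ℂ) * sg (k.val % 2) ((Dd : ℂ) * w c.2 + A.q (k.val % 2) c.2 - Z k.val) := e1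
        rw [ev'] at e3
        apply not_par hZ k.val (k.val % 2) hc lam
        unfold sg at e3
        split_ifs at e3
        · exact e3
        · have e4 := congrArg (fun z => -(starRingEnd ℂ) z) e3
          simp only [map_neg, map_mul, Complex.conj_conj, Complex.conj_ofReal, neg_neg, mul_neg] at e4
          exact e4
      · -- the two clusters are far apart
        have hk : (k.val % 2 = 0 ∧ k'.val % 2 = 1) ∨ (k.val % 2 = 1 ∧ k'.val % 2 = 0) := by omega
        have conv : ∀ {a b z : ℂ} {r : ℝ}, z ∈ segment ℝ a b → a.re ≤ r → b.re ≤ r → z.re ≤ r := by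
          intro a b z r hz ha hb
          have hc : Convex ℝ {z : ℂ | z.re ≤ r} := convex_halfSpace_re_le r
          exact hc.segment_subset ha hb hz
        have conv' : ∀ {a b z : ℂ} {r : ℝ}, z ∈ segment ℝ a b → r ≤ a.re → r ≤ b.re → r ≤ z.re := by
          intro a b z r hz ha hb
          have hc : Convex ℝ {z : ℂ | r ≤ z.re} := convex_halfSpace_re_ge r
          exact hc.segment_subset ha hb hz
        rcases hk with ⟨hk, hk'⟩ | ⟨hk, hk'⟩
        · have g1 := abs_le.1 ((pos_re_chain hZ k).2 hk)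
          have g2 := (pos_re_outer (N := N) A Z c).2 (by omega)
          have g3 := abs_le.1 ((pos_re_chain hZ k').1 hk')
          have g4 := (pos_re_outer (N := N) A Z c').1 (by omega)
          rw [hD] at g1 g2
          have f1 := conv' (r := 999998) hp (by linarith) (by linarith)
          have f2 := conv (r := 2) hp' (by linarith) (by linarith)
          linarith
        · have g1 := abs_le.1 ((pos_re_chain hZ k).1 hk)
          have g2 := (pos_re_outer (N := N) A Z c).1 (by omega)
          have g3 := abs_le.1 ((pos_re_chain hZ k').2 hk')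
          have g4 := (pos_re_outer (N := N) A Z c').2 (by omega)
          rw [hD] at g3 g4
          have f1 := conv (r := 2) hp (by linarith) (by linarith)
          have f2 := conv' (r := 999998) hp' (by linarith) (by linarith)
          linarith

/-- the drawing of the chain -/
def drawing (hZ : A.IsChain N Z) (hN : 2 ≤ N) : Drawing (Ix N) where
  pos := posf A Z
  W := Wf
  inj := posf_inj hZ hN
  symm := Wf_symm
  diag := Wf_diag
  ovl := by
    intro x y z t hxy hzt hne p q hp hp' hq hq'
    rcases exists_Cn hxy with h1 | h1 <;> rcases exists_Cn hzt with h2 | h2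
    · exact ovl_cn hZ hN h1 h2 (fun h => hne (Or.inl h)) hp hp' hq hq'
    · rw [segment_symm ℝ (posf A Z z)] at hp' hq'
      exact ovl_cn hZ hN h1 h2 (fun h => hne (Or.inr h)) hp hp' hq hq'
    · rw [segment_symm ℝ (posf A Z x)] at hp hq
      exact ovl_cn hZ hN h1 h2 (fun h => hne (Or.inr ⟨h.2, h.1⟩)) hp hp' hq hq'
    · rw [segment_symm ℝ (posf A Z x)] at hp hq
      rw [segment_symm ℝ (posf A Z z)] at hp' hq'
      exact ovl_cn hZ hN h1 h2 (fun h => hne (Or.inl ⟨h.2, h.1⟩)) hp hp' hq hq'

end

end Pool.Agent.H950R3
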