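import Mathlib
import Pool.Agent.H950R3.Net

noncomputable section
open scoped Classical

namespace Pool.Agent.H950R3

open Complex Pool.Agent.Helper544.Planar

variable {A : Par} {N : ℕ} {Z : ℕ → ℂ}

theorem uv_sg {a b v : ℂ} {c : ℕ} (h : b - a = sg c v) : uv a b = sg c (U v) := by
  unfold uv
  rw [h, sg_U]

theorem sum_inner (hZ : A.IsChain N Z) {k : Fin (N + 2)} (h1 : 1 ≤ k.val) (h2 : k.val ≤ N) :
    ∑ y : Ix N, ((Wf (Sum.inl k) y : ℕ) : ℂ) * uv (posf A Z (Sum.inl k : Ix N)) (posf A Z y) = 0 := by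
  have hk1 : k.val - 1 < N + 2 := by omega
  have hk2 : k.val + 1 < N + 2 := by omega
  have c1 : ∑ l : Fin (N + 2), ((Wf (Sum.inl k : Ix N) (Sum.inl l) : ℕ) : ℂ) *
      uv (posf A Z (Sum.inl k : Ix N)) (posf A Z (Sum.inl l : Ix N)) =
      sg (k.val % 2) (U ((Dd : ℂ) * 1 + nb (Z k.val) (Z (k.val - 1)))) +
      sg (k.val % 2) (U ((Dd : ℂ) * 1 + nb (Z k.val) (Z (k.val + 1)))) := by
    rw [Finset.sum_eq_add (⟨k.val - 1, hk1⟩ : Fin (N + 2)) ⟨k.val + 1, hk2⟩]
    · simp only [Wf]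
      rw [if_pos (Or.inr (by omega)), if_pos (Or.inl trivial)]
      rw [uv_sg (vec_chain (A := A) Z k ⟨k.val - 1, hk1⟩ (by simp only; omega)),
        uv_sg (vec_chain (A := A) Z k ⟨k.val + 1, hk2⟩ (by simp only; omega))]
      simp
    · intro h
      have := congrArg Fin.val h
      simp only at this
      omega
    · intro l _ hl
      simp only [Wf]
      rw [if_neg]
      · simp
      · rintro (h | h)
        · exact hl.2 (Fin.ext h.symm)
        · apply hl.1
          apply Fin.ext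
          simp only
          omega
    · simp
    · simp
  have c2 : ∑ p : Fin 2 × Fin 3, ((Wf (Sum.inl k : Ix N) (Sum.inr p) : ℕ) : ℂ) *
      uv (posf A Z (Sum.inl k : Ix N)) (posf A Z (Sum.inr p : Ix N)) =
      ∑ j, sg (k.val % 2) (U ((Dd : ℂ) * w j + (A.q (k.val % 2) j - Z k.val))) := by
    rw [Fintype.sum_prod_type, Finset.sum_eq_single (⟨k.val % 2, by omega⟩ : Fin 2)]
    · refine Finset.sum_congr rfl fun j _ => ?_
      simp only [Wf]
      rw [if_pos ⟨h1, h2, trivial⟩]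
      rw [uv_sg (vec_outer (A := A) (N := N) Z k (⟨k.val % 2, by omega⟩, j) rfl)]
      rw [Nat.cast_one, one_mul, add_sub_assoc]
    · intro c _ hc
      refine Finset.sum_eq_zero fun j _ => ?_
      simp only [Wf]
      rw [if_neg]
      · simp
      · rintro ⟨_, _, h⟩
        exact hc (Fin.ext h)
    · simp
  rw [Fintype.sum_sum_type, c1, c2]
  have hF := hZ.bal k.val h1 h2
  unfold F at hF
  rw [← sg_sum, ← sg_add, ← sg_add, hF, sg_zero]

theorem deg_inner {k : Fin (N + 2)} (h1 : 1 ≤ k.val) (h2 : k.val ≤ N) :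
    3 ≤ (Finset.univ.filter (fun y : Ix N => Wf (Sum.inl k) y ≠ 0)).card := by
  have hc : ((Finset.univ : Finset (Fin 3)).image
      (fun j => (Sum.inr ((⟨k.val % 2, by omega⟩ : Fin 2), j) : Ix N))).card = 3 := by
    rw [Finset.card_image_of_injective]
    · simp
    · intro a b h
      have := Sum.inr.inj h
      exact (Prod.mk.inj this).2
  refine hc.symm.le.trans (Finset.card_le_card ?_)
  intro y hy
  rw [Finset.mem_image] at hy
  obtain ⟨j, _, rfl⟩ := hy
  rw [Finset.mem_filter]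
  refine ⟨Finset.mem_univ _, ?_⟩
  simp only [Wf]
  rw [if_pos ⟨h1, h2, trivial⟩]
  norm_num

theorem re_uv_pos {a b : ℂ} (h : a.re < b.re) : 0 < (uv a b).re := by
  unfold uv
  rw [Complex.div_ofReal_re, Complex.sub_re]
  apply div_pos (by linarith)
  rw [norm_pos_iff, sub_ne_zero]
  rintro rfl
  exact lt_irrefl _ h

theorem re_uv_neg {a b : ℂ} (h : b.re < a.re) : (uv a b).re < 0 := by
  rw [uv_neg, Complex.neg_re]
  linarith [re_uv_pos h]

theorem uv_ne_zero {a b : ℂ} (h : a ≠ b) : uv a b ≠ 0 := by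
  unfold uv
  have h3 : b - a ≠ 0 := sub_ne_zero.2 h.symm
  have h4 : (‖b - a‖ : ℂ) ≠ 0 := by exact_mod_cast (norm_ne_zero_iff.2 h3)
  exact div_ne_zero h3 h4

theorem sum_outer (hZ : A.IsChain N Z) (hN : 2 ≤ N) (p : Fin 2 × Fin 3) :
    ∑ y : Ix N, ((Wf (Sum.inr p) y : ℕ) : ℂ) * uv (posf A Z (Sum.inr p : Ix N)) (posf A Z y) ≠ 0 := by
  have hD : Dd = 1000000 := rfl
  intro h0
  rw [Fintype.sum_sum_type] at h0
  have c2 : ∑ y : Fin 2 × Fin 3, ((Wf (Sum.inr p : Ix N) (Sum.inr y) : ℕ) : ℂ) *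
      uv (posf A Z (Sum.inr p : Ix N)) (posf A Z (Sum.inr y : Ix N)) = 0 := by
    refine Finset.sum_eq_zero fun y _ => ?_
    simp [Wf]
  rw [c2, add_zero] at h0
  have h1 := congrArg Complex.re h0
  rw [Complex.re_sum, Complex.zero_re] at h1
  have hterm : ∀ k : Fin (N + 2), (((Wf (Sum.inr p : Ix N) (Sum.inl k) : ℕ) : ℂ) *
      uv (posf A Z (Sum.inr p : Ix N)) (posf A Z (Sum.inl k : Ix N))).re =
      if 1 ≤ k.val ∧ k.val ≤ N ∧ p.1.val = k.val % 2 then
        (uv (posf A Z (Sum.inr p : Ix N)) (posf A Z (Sum.inl k : Ix N))).re else 0 := by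
    intro k
    simp only [Wf]
    split_ifs <;> simp
  simp_rw [hterm] at h1
  have hp := p.1.2
  have hp' : p.1.val = 0 ∨ p.1.val = 1 := by omega
  rcases hp' with hp' | hp'
  · have hneg : ∀ k : Fin (N + 2), k.val % 2 = 0 →
        (uv (posf A Z (Sum.inr p : Ix N)) (posf A Z (Sum.inl k : Ix N))).re < 0 := by
      intro k hk
      have g1 := abs_le.1 ((pos_re_chain hZ k).2 hk)
      have g2 := (pos_re_outer (N := N) A Z p).2 hp'
      apply re_uv_neg
      linarith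
    have hle : ∀ k ∈ (Finset.univ : Finset (Fin (N + 2))),
        (if 1 ≤ k.val ∧ k.val ≤ N ∧ p.1.val = k.val % 2 then
        (uv (posf A Z (Sum.inr p : Ix N)) (posf A Z (Sum.inl k : Ix N))).re else 0) ≤ 0 := by
      intro k _
      split_ifs with h
      · exact (hneg k (by omega)).le
      · exact le_refl _
    have h2 := (Finset.sum_eq_zero_iff_of_nonpos hle).1 h1 (⟨2, by omega⟩ : Fin (N + 2)) (Finset.mem_univ _)
    rw [if_pos ⟨by norm_num, hN, by change p.1.val = 2 % 2; omega⟩] at h2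
    have := hneg ⟨2, by omega⟩ (by norm_num)
    linarith
  · have hpos : ∀ k : Fin (N + 2), k.val % 2 = 1 →
        0 < (uv (posf A Z (Sum.inr p : Ix N)) (posf A Z (Sum.inl k : Ix N))).re := by
      intro k hk
      have g1 := abs_le.1 ((pos_re_chain hZ k).1 hk)
      have g2 := (pos_re_outer (N := N) A Z p).1 hp'
      apply re_uv_pos
      linarith
    have hle : ∀ k ∈ (Finset.univ : Finset (Fin (N + 2))),
        0 ≤ (if 1 ≤ k.val ∧ k.val ≤ N ∧ p.1.val = k.val % 2 then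
        (uv (posf A Z (Sum.inr p : Ix N)) (posf A Z (Sum.inl k : Ix N))).re else 0) := by
      intro k _
      split_ifs with h
      · exact (hpos k (by omega)).le
      · exact le_refl _
    have h2 := (Finset.sum_eq_zero_iff_of_nonneg hle).1 h1 (⟨1, by omega⟩ : Fin (N + 2)) (Finset.mem_univ _)
    rw [if_pos ⟨le_refl _, by simp only; omega, hp'⟩] at h2
    have := hpos ⟨1, by omega⟩ (by norm_num)
    linarith

theorem sum_end (hZ : A.IsChain N Z) (hN : 2 ≤ N) {k : Fin (N + 2)} (hk : k.val = 0 ∨ k.val = N + 1) :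
    ∑ y : Ix N, ((Wf (Sum.inl k) y : ℕ) : ℂ) * uv (posf A Z (Sum.inl k : Ix N)) (posf A Z y) ≠ 0 := by
  obtain ⟨l, hl⟩ : ∃ l : Fin (N + 2), ∀ l' : Fin (N + 2), (k.val + 1 = l'.val ∨ l'.val + 1 = k.val) ↔ l' = l := by
    rcases hk with hk | hk
    · refine ⟨⟨1, by omega⟩, fun l' => ?_⟩
      constructor
      · intro h; apply Fin.ext; simp only; omega
      · rintro rfl; simp only; omega
    · refine ⟨⟨N, by omega⟩, fun l' => ?_⟩
      constructor
      · intro h; apply Fin.ext; simp only; omega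
      · rintro rfl; simp only; omega
  have hkl : (Sum.inl k : Ix N) ≠ Sum.inl l := by
    intro h
    have h1 := Sum.inl.inj h
    have h2 := (hl l).2 rfl
    rw [h1] at h2
    omega
  have c2 : ∑ p : Fin 2 × Fin 3, ((Wf (Sum.inl k : Ix N) (Sum.inr p) : ℕ) : ℂ) *
      uv (posf A Z (Sum.inl k : Ix N)) (posf A Z (Sum.inr p : Ix N)) = 0 := by
    refine Finset.sum_eq_zero fun p _ => ?_
    simp only [Wf]
    rw [if_neg (by omega)]
    simp
  rw [Fintype.sum_sum_type, c2, add_zero, Finset.sum_eq_single l]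
  · simp only [Wf]
    rw [if_pos ((hl l).2 rfl), Nat.cast_one, one_mul]
    exact uv_ne_zero ((posf_inj hZ hN).ne hkl)
  · intro l' _ h
    simp only [Wf]
    rw [if_neg (fun h' => h ((hl l').1 h'))]
    simp
  · simp

/-- the eight boundary points -/
def bpos (A : Par) : Fin 8 → ℂ :=
  ![pl 0 A.a, pl 0 A.b, pl 1 ((Dd : ℂ) * w 0 + A.q 1 0), pl 1 ((Dd : ℂ) * w 1 + A.q 1 1),
    pl 1 ((Dd : ℂ) * w 2 + A.q 1 2), pl 0 ((Dd : ℂ) * w 0 + A.q 0 0), pl 0 ((Dd : ℂ) * w 1 + A.q 0 1),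
    pl 0 ((Dd : ℂ) * w 2 + A.q 0 2)]

/-- their indices -/
def psi (N : ℕ) : Fin 8 → Ix N :=
  ![Sum.inl 0, Sum.inl (Fin.last (N + 1)), Sum.inr (1, 0), Sum.inr (1, 1), Sum.inr (1, 2),
    Sum.inr (0, 0), Sum.inr (0, 1), Sum.inr (0, 2)]

theorem posf_psi (hZ : A.IsChain N Z) (hN : N % 2 = 1) (i : Fin 8) :
    posf A Z (psi N i) = bpos A i := by
  have h : (N + 1) % 2 = 0 := by omega
  fin_cases i
  · simp [psi, bpos, posf, hZ.z0]
  · simp [psi, bpos, posf, hZ.zN, h]
  all_goals simp [psi, bpos, posf]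

theorem psi_inj (N : ℕ) : Function.Injective (psi N) := by
  intro i j h
  fin_cases i <;> fin_cases j <;> first | rfl | (exfalso; simp [psi, Fin.ext_iff] at h)

theorem mem_psi (x : Ix N) : (∃ i, psi N i = x) ∨ ∃ k : Fin (N + 2), x = Sum.inl k ∧ 1 ≤ k.val ∧ k.val ≤ N := by
  rcases x with k | ⟨c, j⟩
  · by_cases h0 : k.val = 0
    · left
      exact ⟨0, congrArg Sum.inl (Fin.ext (by rw [h0]; rfl))⟩
    · by_cases h1 : k.val = N + 1
      · left
        exact ⟨1, congrArg Sum.inl (Fin.ext (by rw [h1]; rfl))⟩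
      · right
        exact ⟨k, rfl, by omega, by omega⟩
  · left
    fin_cases c <;> fin_cases j
    · exact ⟨5, rfl⟩
    · exact ⟨6, rfl⟩
    · exact ⟨7, rfl⟩
    · exact ⟨2, rfl⟩
    · exact ⟨3, rfl⟩
    · exact ⟨4, rfl⟩

theorem sum_psi (hZ : A.IsChain N Z) (hN : 2 ≤ N) (i : Fin 8) :
    ∑ y : Ix N, ((Wf (psi N i) y : ℕ) : ℂ) * uv (posf A Z (psi N i)) (posf A Z y) ≠ 0 := by
  fin_cases i
  · exact sum_end hZ hN (Or.inl rfl)
  · exact sum_end hZ hN (Or.inr rfl)
  · exact sum_outer hZ hN (1, 0)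
  · exact sum_outer hZ hN (1, 1)
  · exact sum_outer hZ hN (1, 2)
  · exact sum_outer hZ hN (0, 0)
  · exact sum_outer hZ hN (0, 1)
  · exact sum_outer hZ hN (0, 2)

/-- the unperturbed parameters -/
def A0 : Par where
  a := I
  b := -I
  q := fun _ _ => 0
  ha := by simp
  hb := by simp
  hq := by intro c j; simp

theorem pl0_pl0 (z : ℂ) : pl 0 (pl 0 z) = z := by
  simp [pl]

theorem norm_pl_sub (c : ℕ) (x y : ℂ) : ‖pl c x - pl c y‖ = ‖x - y‖ := by
  rw [pl_sub, norm_sg]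

/-- parameters from boundary points -/
theorem exists_par {p : Fin 8 → ℂ} (hp : ∀ i, ‖p i - bpos A0 i‖ < 1 / 1000) : ∃ A : Par, bpos A = p := by
  have e0 : ∀ x y : ℂ, ‖x - pl 0 y‖ = ‖pl 0 x - y‖ := by
    intro x y
    rw [← norm_pl_sub 0 x, pl0_pl0]
  have h0 := hp 0
  have h1 := hp 1
  have h2 := hp 2
  have h3 := hp 3
  have h4 := hp 4
  have h5 := hp 5
  have h6 := hp 6
  have h7 := hp 7
  simp only [bpos, A0, Matrix.cons_val, e0, add_zero] at h0 h1 h2 h3 h4 h5 h6 h7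
  simp only [pl, if_true] at h2 h3 h4
  refine ⟨{ a := pl 0 (p 0), b := pl 0 (p 1),
            q := fun c => if c = 1 then ![p 2 - (Dd : ℂ) * w 0, p 3 - (Dd : ℂ) * w 1, p 4 - (Dd : ℂ) * w 2]
              else ![pl 0 (p 5) - (Dd : ℂ) * w 0, pl 0 (p 6) - (Dd : ℂ) * w 1, pl 0 (p 7) - (Dd : ℂ) * w 2],
            ha := h0.le, hb := ?_, hq := ?_ }, ?_⟩
  · rw [sub_neg_eq_add] at h1
    exact h1.le
  · intro c j
    split_ifs
    · fin_cases j
      · exact h2.le
      · exact h3.le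
      · exact h4.le
    · fin_cases j
      · exact h5.le
      · exact h6.le
      · exact h7.le
  · funext i
    fin_cases i
    · simp [bpos, pl0_pl0]
    · simp [bpos, pl0_pl0]
    · simp [bpos, pl]
    · simp [bpos, pl]
    · simp [bpos, pl]
    · simp [bpos, pl0_pl0]
    · simp [bpos, pl0_pl0]
    · simp [bpos, pl0_pl0]

end Pool.Agent.H950R3
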